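import Mathlib

/-!
The Krull dimension of integral extensions.
-/

namespace Pool.Agent.Lib.MP_44a246_ntU

/-- lying over and going up: the dimension does not decrease -/
theorem ringKrullDim_le_of_integral {R A : Type*} [CommRing R] [CommRing A] [Algebra R A]
    [Algebra.IsIntegral R A] (hinj : Function.Injective (algebraMap R A)) :
    ringKrullDim R ≤ ringKrullDim A := by
  unfold ringKrullDim Order.krullDim
  refine iSup_le fun l => ?_
  obtain ⟨P, -, hP, hPc⟩ := Ideal.exists_ideal_over_prime_of_isIntegral (S := A)
    l.head.asIdeal ⊥ (by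
      rw [← RingHom.ker_eq_comap_bot, (RingHom.injective_iff_ker_eq_bot _).1 hinj]
      exact bot_le)
  have : P.LiesOver (RelSeries.head l).asIdeal := ⟨hPc.symm⟩
  obtain ⟨L, hL, -, -⟩ := Ideal.exists_ltSeries_of_hasGoingUp (S := A) l P
  rw [← hL]
  exact le_iSup (fun p : LTSeries (PrimeSpectrum A) => ((p.length : ℕ∞) : WithBot ℕ∞)) L

/-- incomparability: the dimension does not increase -/
theorem ringKrullDim_integral_le {R A : Type*} [CommRing R] [CommRing A] [Algebra R A]
    [Algebra.IsIntegral R A] : ringKrullDim A ≤ ringKrullDim R := by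
  unfold ringKrullDim
  refine Order.krullDim_le_of_strictMono (PrimeSpectrum.comap (algebraMap R A)) ?_
  intro p q hpq
  have h1 : p.asIdeal < q.asIdeal := hpq
  have h2 := Ideal.IsIntegral.comap_lt_comap (R := R) h1
  exact h2

end Pool.Agent.Lib.MP_44a246_ntU
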