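import Mathlib
import Pool.Agent.Lib.MP_44a246_ntU.U01

/-!
Algebraically independent coordinates of a zero of an ideal: their number is at most the Krull
dimension.
-/

namespace Pool.Agent.Lib.MP_44a246_ntU

open MvPolynomial

/-- Noether normalisation gives a transcendence basis -/
theorem noether_basis {k A : Type*} [Field k] [CommRing A] [IsDomain A] [Algebra k A]
    {t : ℕ} (g : MvPolynomial (Fin t) k →ₐ[k] A) (hg : Function.Injective g)
    (hint : g.IsIntegral) : IsTranscendenceBasis k (fun i => g (X i)) := by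
  let := g.toRingHom.toAlgebra
  have : IsScalarTower k (MvPolynomial (Fin t) k) A := IsScalarTower.of_algebraMap_eq fun x => by
    change algebraMap k A x = g (algebraMap k _ x)
    exact (g.commutes x).symm
  have : Algebra.IsIntegral (MvPolynomial (Fin t) k) A := ⟨fun x => hint x⟩
  have : FaithfulSMul (MvPolynomial (Fin t) k) A :=
    (faithfulSMul_iff_algebraMap_injective _ _).mpr hg
  have h1 : IsTranscendenceBasis k (X : Fin t → MvPolynomial (Fin t) k) :=
    IsTranscendenceBasis.mvPolynomial (Fin t) k
  exact h1.algebraMap_comp (A := A)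

/-- the Krull dimension of a polynomial ring over a field -/
theorem dim_mvPolynomial {k : Type*} [Field k] (t : ℕ) :
    ringKrullDim (MvPolynomial (Fin t) k) = (t : WithBot ℕ∞) := by
  rw [MvPolynomial.ringKrullDim_of_isNoetherianRing, ringKrullDim_eq_zero_of_field]
  simp

/-- algebraically independent elements of a finitely generated domain -/
theorem card_le_ringKrullDim {k A : Type*} [Field k] [CommRing A] [IsDomain A] [Algebra k A]
    [Algebra.FiniteType k A] {p : ℕ} {y : Fin p → A} (hy : AlgebraicIndependent k y) :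
    (p : WithBot ℕ∞) ≤ ringKrullDim A := by
  obtain ⟨t, g, hg, hint⟩ := exists_integral_inj_algHom_of_fg k A
  have hB := noether_basis g hg hint
  have h1 : p ≤ t := by
    have e1 := hB.lift_cardinalMk_eq_trdeg
    have e2 := hy.lift_cardinalMk_le_trdeg
    rw [← e1] at e2
    simpa using e2
  let := g.toRingHom.toAlgebra
  have : Algebra.IsIntegral (MvPolynomial (Fin t) k) A := ⟨fun x => hint x⟩
  have h2 : ringKrullDim (MvPolynomial (Fin t) k) ≤ ringKrullDim A :=
    ringKrullDim_le_of_integral (R := MvPolynomial (Fin t) k) (A := A) hg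
  rw [dim_mvPolynomial] at h2
  exact le_trans (by exact_mod_cast h1) h2

/-- Algebraically independent coordinates of a zero of an ideal. -/
theorem card_le_of_dim {k M : Type*} [Field k] [Field M] [Algebra k M] {n r : ℕ}
    {I : Ideal (MvPolynomial (Fin n) k)}
    (hI : ringKrullDim (MvPolynomial (Fin n) k ⧸ I) ≤ (r : ℕ))
    {γ : Fin n → M} (hγ : ∀ f ∈ I, aeval γ f = 0) {p : ℕ} {j : Fin p → Fin n}
    (hj : AlgebraicIndependent k (fun i => γ (j i))) : p ≤ r := by
  set φ : MvPolynomial (Fin n) k →ₐ[k] M := aeval γ with hφ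
  have hle : I ≤ RingHom.ker φ := fun f hf => hγ f hf
  have : (RingHom.ker φ).IsPrime := RingHom.ker_isPrime _
  let A := MvPolynomial (Fin n) k ⧸ RingHom.ker φ
  have h1 : ringKrullDim A ≤ ringKrullDim (MvPolynomial (Fin n) k ⧸ I) :=
    ringKrullDim_le_of_surjective (Ideal.Quotient.factor hle) (Ideal.Quotient.factor_surjective hle)
  let ψ : A →ₐ[k] M := Ideal.kerLiftAlg φ
  have h2 : AlgebraicIndependent k (fun i => (Ideal.Quotient.mkₐ k (RingHom.ker φ) (X (j i)) : A)) := by
    refine AlgebraicIndependent.of_comp ψ ?_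
    convert hj using 1
    funext i
    simp [ψ, hφ]
  have h3 : (p : WithBot ℕ∞) ≤ ringKrullDim A := card_le_ringKrullDim h2
  have h4 := (h3.trans h1).trans hI
  exact_mod_cast h4

end Pool.Agent.Lib.MP_44a246_ntU
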