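import Mathlib
import Pool.Agent.Lib.MP_44a246_ntU.U02

/-!
Algebraically independent affine coordinates of a point of a projective variety.
-/

namespace Pool.Agent.Lib.MP_44a246_ntU

open MvPolynomial

/-- a scaled family: if `y` is algebraically independent over `k` then so is `(X, X y)` in the field
of rational functions -/
theorem indep_scale {k M : Type*} [Field k] [Field M] [Algebra k M] {p : ℕ} {y : Fin p → M}
    (hy : AlgebraicIndependent k y) :
    AlgebraicIndependent k (Fin.cons RatFunc.X
      (fun i => RatFunc.X * algebraMap M (RatFunc M) (y i)) : Fin (p + 1) → RatFunc M) := by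
  classical
  rw [algebraicIndependent_iff]
  intro H hH
  set ψ : Fin (p + 1) → Polynomial M :=
    Fin.cons Polynomial.X (fun i => Polynomial.X * Polynomial.C (y i)) with hψ
  have h1 : (Fin.cons RatFunc.X
      (fun i => RatFunc.X * algebraMap M (RatFunc M) (y i)) : Fin (p + 1) → RatFunc M)
      = fun i => algebraMap (Polynomial M) (RatFunc M) (ψ i) := by
    funext i
    refine Fin.cases ?_ (fun i => ?_) i
    · simp [hψ]
    · simp [hψ]
      exact mul_comm _ _
  have h2 : aeval ψ H = 0 := by
    rw [h1] at hH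
    change aeval (algebraMap (Polynomial M) (RatFunc M) ∘ ψ) H = 0 at hH
    rw [MvPolynomial.aeval_algebraMap_apply] at hH
    exact (map_eq_zero_iff _ (RatFunc.algebraMap_injective M)).mp hH
  -- the monomials
  have h3 : ∀ m : Fin (p + 1) →₀ ℕ, ∏ i, ψ i ^ m i
      = Polynomial.C (∏ i, y i ^ m (Fin.succ i)) * Polynomial.X ^ (m 0 + ∑ i : Fin p, m i.succ) := by
    intro m
    rw [Fin.prod_univ_succ]
    simp only [hψ, Fin.cons_zero, Fin.cons_succ, mul_pow, Finset.prod_mul_distrib,
      Finset.prod_pow_eq_pow_sum, map_prod, map_pow, pow_add]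
    ring
  rw [aeval_def, eval₂_eq'] at h2
  ext m₀
  rw [coeff_zero]
  by_contra hm₀
  set d := m₀ 0 + ∑ i : Fin p, m₀ i.succ with hd
  have h4 := congrArg (fun q => Polynomial.coeff q d) h2
  simp only [Polynomial.finsetSum_coeff, Polynomial.coeff_zero, h3] at h4
  have h5 : ∀ m : Fin (p + 1) →₀ ℕ, (algebraMap k (Polynomial M) (coeff m H) *
      (Polynomial.C (∏ i, y i ^ m (Fin.succ i)) * Polynomial.X ^ (m 0 + ∑ i : Fin p, m i.succ))).coeff d
      = if m 0 + ∑ i : Fin p, m i.succ = d then algebraMap k M (coeff m H) * ∏ i, y i ^ m (Fin.succ i)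
        else 0 := by
    intro m
    rw [Polynomial.algebraMap_apply, ← mul_assoc, ← Polynomial.C_mul, Polynomial.coeff_C_mul,
      Polynomial.coeff_X_pow]
    by_cases h : m 0 + ∑ i : Fin p, m i.succ = d
    · rw [if_pos h, if_pos h.symm, mul_one]
    · rw [if_neg h, if_neg (fun h' => h h'.symm), mul_zero]
  simp only [h5] at h4
  rw [← Finset.sum_filter] at h4
  set S := H.support.filter (fun m => m 0 + ∑ i : Fin p, m i.succ = d) with hS
  have h6 : aeval y (∑ m ∈ S, monomial (Finsupp.tail m) (coeff m H)) = 0 := by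
    rw [map_sum, ← h4]
    refine Finset.sum_congr rfl fun m _ => ?_
    rw [aeval_monomial, Finsupp.prod_fintype _ _ (fun i => pow_zero _)]
    rfl
  have h7 := (algebraicIndependent_iff.mp hy) _ h6
  have h8 := congrArg (coeff (Finsupp.tail m₀)) h7
  rw [coeff_sum, coeff_zero, Finset.sum_eq_single m₀] at h8
  · rw [coeff_monomial, if_pos rfl] at h8
    exact hm₀ h8
  · intro m hm hne
    rw [coeff_monomial, if_neg]
    intro h
    apply hne
    have h9 : ∀ i : Fin p, m i.succ = m₀ i.succ := fun i => DFunLike.congr_fun h i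
    have h10 : m 0 = m₀ 0 := by
      have := (Finset.mem_filter.mp hm).2
      rw [hd, Finset.sum_congr rfl fun i _ => h9 i] at this
      omega
    ext i
    refine Fin.cases h10 h9 i
  · intro h
    exfalso
    apply h
    rw [hS, Finset.mem_filter]
    exact ⟨mem_support_iff.mpr hm₀, rfl⟩

private theorem aeval_scale' {k B : Type*} [Field k] [CommRing B] [Algebra k B] {n : ℕ}
    {f : MvPolynomial (Fin n) k} {e : ℕ} (hf : f.IsHomogeneous e) (P : Fin n → B) (c : B) :
    aeval (fun i => c * P i) f = c ^ e * aeval P f := by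
  rw [aeval_def, aeval_def, eval₂_eq', eval₂_eq', Finset.mul_sum]
  refine Finset.sum_congr rfl fun I hI => ?_
  have h1 := hf (mem_support_iff.1 hI)
  rw [Finsupp.weight_apply, Finsupp.sum_fintype _ _ (by simp)] at h1
  simp only [Pi.one_apply, smul_eq_mul, mul_one] at h1
  simp only [mul_pow, Finset.prod_mul_distrib, Finset.prod_pow_eq_pow_sum, h1]
  ring

/-- **Algebraically independent affine coordinates of a point of a projective variety.** -/
theorem card_le_of_dim_proj {k M : Type*} [Field k] [Field M] [Algebra k M] {n r : ℕ}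
    {ι : Type*} {f : ι → MvPolynomial (Fin n) k} {e : ι → ℕ}
    (hf : ∀ i, (f i).IsHomogeneous (e i))
    (hI : ringKrullDim (MvPolynomial (Fin n) k ⧸ Ideal.span (Set.range f)) ≤ ((r + 1 : ℕ) : ℕ))
    {γ : Fin n → M} (hγ : ∀ i, aeval γ (f i) = 0) {l : Fin n} (hl : γ l ≠ 0) {p : ℕ}
    {j : Fin p → Fin n} (hj : AlgebraicIndependent k (fun i => γ (j i) / γ l)) : p ≤ r := by
  have h1 := indep_scale hj
  set γ' : Fin n → RatFunc M := fun i => RatFunc.X * algebraMap M (RatFunc M) (γ i / γ l) with hγ'
  have h2 : (Fin.cons RatFunc.X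
      (fun i => RatFunc.X * algebraMap M (RatFunc M) (γ (j i) / γ l)) : Fin (p + 1) → RatFunc M)
      = fun i => γ' ((Fin.cons l j : Fin (p + 1) → Fin n) i) := by
    funext i
    refine Fin.cases ?_ (fun i => ?_) i
    · simp only [hγ', Fin.cons_zero, div_self hl, map_one, mul_one]
    · simp only [hγ', Fin.cons_succ]
  rw [h2] at h1
  have h3 : ∀ g ∈ Ideal.span (Set.range f), aeval γ' g = 0 := by
    intro g hg
    refine Submodule.span_induction (p := fun g _ => aeval γ' g = 0) ?_ (by simp) ?_ ?_ hg
    · rintro _ ⟨i, rfl⟩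
      have h4 : γ' = fun t => (RatFunc.X * algebraMap M (RatFunc M) (γ l)⁻¹) * algebraMap M (RatFunc M) (γ t) := by
        funext t
        simp only [hγ', div_eq_mul_inv, map_mul]
        ring
      rw [h4]
      have h5 : aeval (fun t => (RatFunc.X * algebraMap M (RatFunc M) (γ l)⁻¹) *
          algebraMap M (RatFunc M) (γ t)) (f i)
          = (RatFunc.X * algebraMap M (RatFunc M) (γ l)⁻¹) ^ (e i) *
            aeval (fun t => algebraMap M (RatFunc M) (γ t)) (f i) := by
        exact aeval_scale' (hf i) _ _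
      have h6 : aeval (fun t => algebraMap M (RatFunc M) (γ t)) (f i) = 0 := by
        change aeval (algebraMap M (RatFunc M) ∘ γ) (f i) = 0
        rw [MvPolynomial.aeval_algebraMap_apply, hγ i, map_zero]
      rw [h5, h6, mul_zero]
    · intro a b _ _ ha hb
      rw [map_add, ha, hb, add_zero]
    · intro a b _ hb
      rw [smul_eq_mul, map_mul, hb, mul_zero]
  have h6 := card_le_of_dim hI h3 h1
  omega

end Pool.Agent.Lib.MP_44a246_ntU
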