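import Mathlib
import Pool.Agent.Lib.MP_44a246_ntU.U04

/-!
Algebraically independent coordinates of a normalised point of a projective variety.
-/

namespace Pool.Agent.Lib.MP_44a246_ntU

open MvPolynomial

/-- Algebraically independent elements of the ring generated by the coordinates of a zero of an
ideal. -/
theorem card_le_of_dim_gen {k M : Type*} [Field k] [Field M] [Algebra k M] {n r : ℕ}
    {I : Ideal (MvPolynomial (Fin n) k)}
    (hI : ringKrullDim (MvPolynomial (Fin n) k ⧸ I) ≤ (r : ℕ))
    {γ : Fin n → M} (hγ : ∀ f ∈ I, aeval γ f = 0) {p : ℕ} {y : Fin p → MvPolynomial (Fin n) k}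
    (hj : AlgebraicIndependent k (fun i => aeval γ (y i))) : p ≤ r := by
  set φ : MvPolynomial (Fin n) k →ₐ[k] M := aeval γ with hφ
  have hle : I ≤ RingHom.ker φ := fun f hf => hγ f hf
  have : (RingHom.ker φ).IsPrime := RingHom.ker_isPrime _
  let A := MvPolynomial (Fin n) k ⧸ RingHom.ker φ
  have h1 : ringKrullDim A ≤ ringKrullDim (MvPolynomial (Fin n) k ⧸ I) :=
    ringKrullDim_le_of_surjective (Ideal.Quotient.factor hle) (Ideal.Quotient.factor_surjective hle)
  let ψ : A →ₐ[k] M := Ideal.kerLiftAlg φ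
  have h2 : AlgebraicIndependent k (fun i => (Ideal.Quotient.mkₐ k (RingHom.ker φ) (y i) : A)) := by
    refine AlgebraicIndependent.of_comp ψ ?_
    convert hj using 1
    funext i
    simp [ψ, hφ]
  have h3 : (p : WithBot ℕ∞) ≤ ringKrullDim A := card_le_ringKrullDim h2
  have h4 := (h3.trans h1).trans hI
  exact_mod_cast h4

private theorem aeval_scale'' {k B : Type*} [Field k] [CommRing B] [Algebra k B] {n : ℕ}
    {f : MvPolynomial (Fin n) k} {e : ℕ} (hf : f.IsHomogeneous e) (P : Fin n → B) (c : B) :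
    aeval (fun i => c * P i) f = c ^ e * aeval P f := by
  rw [aeval_def, aeval_def, eval₂_eq', eval₂_eq', Finset.mul_sum]
  refine Finset.sum_congr rfl fun I hI => ?_
  have h1 := hf (mem_support_iff.1 hI)
  rw [Finsupp.weight_apply, Finsupp.sum_fintype _ _ (by simp)] at h1
  simp only [Pi.one_apply, smul_eq_mul, mul_one] at h1
  simp only [mul_pow, Finset.prod_mul_distrib, Finset.prod_pow_eq_pow_sum, h1]
  ring

/-- **Algebraically independent coordinates of a normalised point of a projective variety.** -/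
theorem card_le_of_dim_norm {k M : Type*} [Field k] [Field M] [Algebra k M] {n r : ℕ}
    {ι : Type*} {f : ι → MvPolynomial (Fin n) k} {e : ι → ℕ}
    (hf : ∀ i, (f i).IsHomogeneous (e i))
    (hI : ringKrullDim (MvPolynomial (Fin n) k ⧸ Ideal.span (Set.range f)) ≤ ((r + 1 : ℕ) : ℕ))
    {γ : Fin n → M} (hγ : ∀ i, aeval γ (f i) = 0) {ξ : Fin n → ℕ}
    (hξ : ∑ l, (ξ l : M) * γ l = 1) {p : ℕ}
    {j : Fin p → Fin n} (hj : AlgebraicIndependent k (fun i => γ (j i))) : p ≤ r := by
  have h1 := indep_scale hj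
  set γ' : Fin n → RatFunc M := fun i => RatFunc.X * algebraMap M (RatFunc M) (γ i) with hγ'
  have h2 : (Fin.cons RatFunc.X
      (fun i => RatFunc.X * algebraMap M (RatFunc M) (γ (j i))) : Fin (p + 1) → RatFunc M)
      = fun i => aeval γ' ((Fin.cons (∑ l, C (ξ l : k) * X l) (fun i => X (j i)) :
          Fin (p + 1) → MvPolynomial (Fin n) k) i) := by
    funext i
    refine Fin.cases ?_ (fun i => ?_) i
    · simp only [Fin.cons_zero, map_sum, map_mul, aeval_C, aeval_X, hγ']
      have h3 : algebraMap M (RatFunc M) (∑ l, (ξ l : M) * γ l) = 1 := by rw [hξ, map_one]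
      rw [map_sum] at h3
      calc (RatFunc.X : RatFunc M) = RatFunc.X * 1 := (mul_one _).symm
        _ = RatFunc.X * ∑ l, algebraMap M (RatFunc M) ((ξ l : M) * γ l) := by rw [h3]
        _ = _ := by
          rw [Finset.mul_sum]
          refine Finset.sum_congr rfl fun l _ => ?_
          rw [map_mul, map_natCast, map_natCast]
          ring
    · simp only [Fin.cons_succ, aeval_X, hγ']
  rw [h2] at h1
  have h3 : ∀ g ∈ Ideal.span (Set.range f), aeval γ' g = 0 := by
    intro g hg
    refine Submodule.span_induction (p := fun g _ => aeval γ' g = 0) ?_ (by simp) ?_ ?_ hg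
    · rintro _ ⟨i, rfl⟩
      have h5 : aeval γ' (f i) = (RatFunc.X : RatFunc M) ^ (e i) *
            aeval (fun t => algebraMap M (RatFunc M) (γ t)) (f i) := by
        exact aeval_scale'' (hf i) _ _
      have h6 : aeval (fun t => algebraMap M (RatFunc M) (γ t)) (f i) = 0 := by
        change aeval (algebraMap M (RatFunc M) ∘ γ) (f i) = 0
        rw [MvPolynomial.aeval_algebraMap_apply, hγ i, map_zero]
      rw [h5, h6, mul_zero]
    · intro a b _ _ ha hb
      rw [map_add, ha, hb, add_zero]
    · intro a b _ hb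
      rw [smul_eq_mul, map_mul, hb, mul_zero]
  have h6 := card_le_of_dim_gen hI h3 h1
  omega

end Pool.Agent.Lib.MP_44a246_ntU
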