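import Mathlib
import Pool.Agent.Lib.MP_44a246_ntS.SP3

/-!
Linear algebra: the maximal minors of a tangent space and a linear functional.
-/

namespace Pool.Agent.Lib.MP_44a246_ntU

open Pool.Agent.Lib.MP_44a246_ntS
open Module

/-- rows which are linearly independent have a nonzero maximal minor -/
theorem exists_minor_ne {M : Type*} [Field M] {p n : ℕ} {u : Fin p → Fin n → M}
    (hu : LinearIndependent M u) :
    ∃ J : Fin p → Fin n, (Matrix.of fun i k => u i (J k)).det ≠ 0 := by
  set A : Matrix (Fin p) (Fin n) M := Matrix.of u with hA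
  have h1 : A.rank = Fintype.card (Fin p) := LinearIndependent.rank_matrix (M := A) hu
  rw [Fintype.card_fin, Matrix.rank_eq_finrank_span_cols] at h1
  obtain ⟨f, hfs, -, hli⟩ := Submodule.exists_fun_fin_finrank_span_eq M (Set.range A.col)
  have h2 : ∀ i : Fin p, ∃ J, A.col J = f (Fin.cast h1.symm i) := fun i => hfs _
  choose J hJ using h2
  refine ⟨J, ?_⟩
  have h3 : LinearIndependent M (Matrix.of fun i k => u i (J k)).col := by
    have h4 : (Matrix.of fun i k => u i (J k)).col = f ∘ Fin.cast h1.symm := by
      funext k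
      rw [Function.comp_apply, ← hJ k]
      rfl
    rw [h4]
    exact hli.comp _ (Fin.cast_injective _)
  rw [Matrix.linearIndependent_cols_iff_isUnit, Matrix.isUnit_iff_isUnit_det] at h3
  exact h3.ne_zero

/-- a nonzero minor shows that the rows are linearly independent -/
theorem indep_of_minor {M : Type*} [Field M] {p n : ℕ} {u : Fin p → Fin n → M} {J : Fin p → Fin n}
    (h : (Matrix.of fun i k => u i (J k)).det ≠ 0) : LinearIndependent M u := by
  have h1 : LinearIndependent M (Matrix.of fun i k => u i (J k)).row := by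
    rw [Matrix.linearIndependent_rows_iff_isUnit, Matrix.isUnit_iff_isUnit_det]
    exact h.isUnit
  exact LinearIndependent.of_comp (LinearMap.funLeft M M J) h1

/-- **In a space `T` of dimension at most `m + 3` the minors of the vectors `w, u` are proportional
to the functional `g`**, which vanishes on the independent vectors `u`. -/
theorem exists_minor {M : Type*} [Field M] {n m : ℕ} {T : Submodule M (Fin n → M)}
    (hT : finrank M T ≤ m + 3) {u : Fin (m + 2) → Fin n → M} (hu : LinearIndependent M u)
    (huT : ∀ i, u i ∈ T) {g : Fin n → M} (hg : ∀ i, ∑ k, g k * u i k = 0) {w₀ : Fin n → M}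
    (hw₀ : w₀ ∈ T) (hgw₀ : ∑ k, g k * w₀ k ≠ 0) :
    ∃ (J : Fin (m + 3) → Fin n) (lam : M), lam ≠ 0 ∧ ∀ w ∈ T,
      (consMat (fun k => w (J k)) (fun i k => u i (J k))).det = lam * ∑ k, g k * w k := by
  classical
  have hgs : ∀ x ∈ Submodule.span M (Set.range u), ∑ k, g k * x k = 0 := by
    intro x hx
    refine Submodule.span_induction (p := fun x _ => ∑ k, g k * x k = 0) ?_ (by simp) ?_ ?_ hx
    · rintro _ ⟨i, rfl⟩; exact hg i
    · intro a b _ _ ha hb
      simp only [Pi.add_apply, mul_add, Finset.sum_add_distrib, ha, hb, add_zero]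
    · intro c a _ ha
      have : ∑ k, g k * (c • a) k = c * ∑ k, g k * a k := by
        rw [Finset.mul_sum]
        exact Finset.sum_congr rfl fun k _ => by rw [Pi.smul_apply, smul_eq_mul]; ring
      rw [this, ha, mul_zero]
  set v : Fin (m + 3) → Fin n → M := Fin.cons w₀ u with hv
  have hvi : LinearIndependent M v := by
    rw [hv, linearIndependent_finCons]
    exact ⟨hu, fun h => hgw₀ (hgs _ h)⟩
  obtain ⟨J, hJ⟩ := exists_minor_ne hvi
  have hdet0 : (consMat (fun k => w₀ (J k)) (fun i k => u i (J k))).det ≠ 0 := by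
    have h1 : consMat (fun k => w₀ (J k)) (fun i k => u i (J k)) = Matrix.of fun i k => v i (J k) := by
      ext i k
      refine Fin.cases ?_ (fun i => ?_) i
      · rfl
      · rfl
    rw [h1]; exact hJ
  have hT2 : T = Submodule.span M (Set.range v) := by
    symm
    apply Submodule.eq_of_le_of_finrank_le
    · rw [Submodule.span_le]
      rintro _ ⟨i, rfl⟩
      refine Fin.cases hw₀ (fun i => huT i) i
    · rw [finrank_span_eq_card hvi, Fintype.card_fin]
      exact hT
  refine ⟨J, (consMat (fun k => w₀ (J k)) (fun i k => u i (J k))).det / ∑ k, g k * w₀ k,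
    div_ne_zero hdet0 hgw₀, ?_⟩
  set N₀ : Matrix (Fin (m + 3)) (Fin (m + 3)) M := consMat 0 (fun i k => u i (J k)) with hN₀
  have hup : ∀ r : Fin (m + 3) → M, consMat r (fun i k => u i (J k)) = N₀.updateRow 0 r := by
    intro r
    ext i k
    refine Fin.cases ?_ (fun i => ?_) i
    · rw [Matrix.updateRow_self]; rfl
    · rw [Matrix.updateRow_ne (Fin.succ_ne_zero i)]; rfl
  intro w hw
  rw [hT2] at hw
  refine Submodule.span_induction (p := fun w _ =>
    (consMat (fun k => w (J k)) (fun i k => u i (J k))).det
      = (consMat (fun k => w₀ (J k)) (fun i k => u i (J k))).det / (∑ k, g k * w₀ k)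
        * ∑ k, g k * w k) ?_ ?_ ?_ ?_ hw
  · rintro _ ⟨i, rfl⟩
    refine Fin.cases ?_ (fun i => ?_) i
    · change (consMat (fun k => w₀ (J k)) (fun i k => u i (J k))).det
        = _ * ∑ k, g k * w₀ k
      rw [div_mul_cancel₀ _ hgw₀]
    · change (consMat (fun k => u i (J k)) (fun i k => u i (J k))).det
        = _ * ∑ k, g k * u i k
      rw [hg i, mul_zero]
      refine Matrix.det_zero_of_row_eq (i := 0) (j := i.succ) (Fin.succ_ne_zero i).symm ?_
      rfl
  · rw [hup]
    simp only [Pi.zero_apply, mul_zero, Finset.sum_const_zero]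
    exact Matrix.det_eq_zero_of_row_eq_zero 0 (fun k => by rw [Matrix.updateRow_self])
  · intro a b _ _ ha hb
    have h1 : (fun k => (a + b) (J k)) = (fun k => a (J k)) + (fun k => b (J k)) := rfl
    rw [hup] at ha hb
    rw [hup, h1, Matrix.det_updateRow_add, ha, hb, ← mul_add, ← Finset.sum_add_distrib]
    congr 1
    exact Finset.sum_congr rfl fun k _ => by rw [Pi.add_apply]; ring
  · intro c a _ ha
    have h1 : (fun k => (c • a) (J k)) = c • (fun k => a (J k)) := rfl
    rw [hup] at ha
    rw [hup, h1, Matrix.det_updateRow_smul, ha]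
    have h2 : ∑ k, g k * (c • a) k = c * ∑ k, g k * a k := by
      rw [Finset.mul_sum]
      exact Finset.sum_congr rfl fun k _ => by rw [Pi.smul_apply, smul_eq_mul]; ring
    rw [h2]; ring

end Pool.Agent.Lib.MP_44a246_ntU
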