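import Mathlib
import Pool.Agent.Lib.MP_44a246_nt.Core
import Pool.Agent.Lib.MP_44a246_ntL.LFF
import Pool.Agent.Lib.MP_44a246_ntS.SP2b
import Pool.Agent.Lib.MP_44a246_ntS.SP3

/-!
The local estimate for a covering family of curves in a variety.
-/

namespace Pool.Agent.Lib.MP_44a246_ntU

open Pool.Agent.Lib.MP_e52354_nt
open Pool.Agent.Lib.MP_44a246_nt
open Pool.Agent.Lib.MP_44a246_ntL
open Pool.Agent.Lib.MP_44a246_ntS
open WithZero Polynomial

section

variable {κ M : Type*} [Field κ] [IsAlgClosed κ] [CharZero κ] [Field M] [Algebra κ M]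
  [Algebra κ[X] M] [IsScalarTower κ κ[X] M]
  [Algebra (RatFunc κ) M] [IsScalarTower κ[X] (RatFunc κ) M]
  [Algebra (Rinf κ) M] [IsScalarTower (Rinf κ) (RatFunc κ) M]
  [FiniteDimensional (RatFunc κ) M]

/-- the local estimate of the determinant; the first row is the derivative of `γ` by `W` -/
theorem wedge_placeV (w : Place κ M) {m n : ℕ} (D : Derivation ℤ M M)
    (hκ : ∀ u : κ, D (algebraMap κ M u) = 0) (hX : D (algebraMap κ[X] M X) = 1)
    (W : Derivation ℤ M M) (hWκ : ∀ u : κ, ∃ u' : κ, W (algebraMap κ M u) = algebraMap κ M u')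
    (hWX : ∃ u : κ, W (algebraMap κ[X] M X) = algebraMap κ M u)
    (E : Fin m → Derivation ℤ M M)
    (hEκ : ∀ i, ∀ u : κ, ∃ u' : κ, E i (algebraMap κ M u) = algebraMap κ M u')
    (hEX : ∀ i, ∃ u : κ, E i (algebraMap κ[X] M X) = algebraMap κ M u)
    {γ : Fin n → M} (hγ : γ ≠ 0) (J : Fin (m + 3) → Fin n) :
    w.1 (consMat (fun k => W (γ (J k)))
        (Fin.cons (fun k => γ (J k)) (Fin.cons (fun k => D (γ (J k)))
          fun i k => E i (γ (J k))))).det ≤
      vmax w.1 γ ^ (m + 3) * exp ((ramIdx (RatFunc κ) w.1 - 1 : ℕ) : ℤ) := by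
  -- the proof of `wedge_place` (file MP_44a246_ntS/SP4b.lean), with the first row treated like the
  -- rows of the `E i`
  obtain ⟨l, hl0, hlv, hlmax⟩ := exists_vmax w.1 hγ
  obtain ⟨π, hπ⟩ := w.2.1 (exp (-1 : ℤ))
  set e : ℕ := ramIdx (RatFunc κ) w.1 - 1 with he
  have hDκ : ∀ u : κ, ∃ u' : κ, D (algebraMap κ M u) = algebraMap κ M u' := fun u =>
    ⟨0, by rw [hκ u, map_zero]⟩
  have hDX : ∃ u : κ, D (algebraMap κ[X] M X) = algebraMap κ M u := ⟨1, by rw [hX, map_one]⟩
  have hDπ : D π ≠ 0 := der_unif_ne w D hκ hX hπ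
  have hDp : ∀ y, w.1 y ≤ 1 → w.1 (D y) ≤ exp (e : ℤ) := fun y hy => der_place w D hDκ hDX hy
  -- the corrected derivations
  have corr : ∀ F : Derivation ℤ M M, (∀ u : κ, ∃ u' : κ, F (algebraMap κ M u) = algebraMap κ M u') →
      (∃ u : κ, F (algebraMap κ[X] M X) = algebraMap κ M u) →
      ∀ y, w.1 y ≤ 1 → w.1 (F y - F π / D π * D y) ≤ 1 := by
    intro F hFκ hFX
    have hFp : ∀ y, w.1 y ≤ 1 → w.1 (F y) ≤ exp (e : ℤ) := fun y hy => der_place w F hFκ hFX hy
    set c : M := F π / D π with hc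
    set F' : Derivation ℤ M M := F - c • D with hF'
    have hF'a : ∀ y, F' y = F y - c * D y := fun y => rfl
    have hF'κ : ∀ u : κ, ∃ u' : κ, F' (algebraMap κ M u) = algebraMap κ M u' := by
      intro u
      obtain ⟨u', hu'⟩ := hFκ u
      exact ⟨u', by rw [hF'a, hκ, mul_zero, sub_zero, hu']⟩
    have hF'π : F' π = 0 := by
      rw [hF'a, hc, div_mul_cancel₀ _ hDπ, sub_self]
    intro y hy
    rw [← hF'a]
    have hcle : w.1 c ≤ exp (((log (w.1 c)).toNat : ℕ) : ℤ) := by
      by_cases h0 : w.1 c = 0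
      · rw [h0]; exact zero_le
      · conv_lhs => rw [← exp_log h0]
        rw [exp_le_exp]
        exact Int.self_le_toNat _
    refine der_int w F' hF'κ (N := (log (w.1 c)).toNat + e) ?_ hπ hF'π hy
    intro z hz
    rw [hF'a]
    refine (w.1.map_sub _ _).trans (max_le ?_ ?_)
    · refine (hFp z hz).trans ?_
      rw [exp_le_exp]
      push_cast
      have : (0 : ℤ) ≤ ((log (w.1 c)).toNat : ℤ) := Int.natCast_nonneg _
      linarith
    · rw [map_mul]
      refine (mul_le_mul' hcle (hDp z hz)).trans (le_of_eq ?_)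
      rw [← exp_add]
      push_cast
      rfl
  -- the normalised vector
  set q : Fin n → M := fun k => γ k / γ l with hq
  have hγq : ∀ k, γ k = γ l * q k := fun k => by
    rw [hq]
    simp only
    rw [mul_div_cancel₀ _ hl0]
  have hqv : ∀ k, w.1 (q k) ≤ 1 := by
    intro k
    rw [hq]
    simp only
    rw [map_div₀]
    exact div_le_one_of_le₀ (hlmax k) zero_le
  -- the matrices
  set N : Matrix (Fin (m + 3)) (Fin (m + 3)) M := consMat (fun k => W (γ (J k)))
        (Fin.cons (fun k => γ (J k)) (Fin.cons (fun k => D (γ (J k)))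
          fun i k => E i (γ (J k)))) with hN
  set N₁ : Matrix (Fin (m + 3)) (Fin (m + 3)) M := consMat (fun k => (γ l)⁻¹ * W (γ (J k)))
        (Fin.cons (fun k => q (J k)) (Fin.cons (fun k => (γ l)⁻¹ * D (γ (J k)))
          fun i k => (γ l)⁻¹ * E i (γ (J k)))) with hN₁
  set N₂ : Matrix (Fin (m + 3)) (Fin (m + 3)) M := consMat (fun k => W (q (J k)))
        (Fin.cons (fun k => q (J k)) (Fin.cons (fun k => D (q (J k)))
          fun i k => E i (q (J k)))) with hN₂
  set N₃ : Matrix (Fin (m + 3)) (Fin (m + 3)) M :=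
        consMat (fun k => W (q (J k)) - W π / D π * D (q (J k)))
        (Fin.cons (fun k => q (J k)) (Fin.cons (fun k => D (q (J k)))
          fun i k => E i (q (J k)) - E i π / D π * D (q (J k)))) with hN₃
  have d1 : N.det = γ l ^ (m + 3) * N₁.det := by
    have h1 : N = γ l • N₁ := by
      ext i k
      rw [Matrix.smul_apply, smul_eq_mul]
      refine Fin.cases ?_ (fun i => Fin.cases ?_ (fun i => Fin.cases ?_ (fun i => ?_) i) i) i
      · simp only [hN, hN₁, consMat, Matrix.of_apply, Fin.cons_zero]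
        rw [mul_inv_cancel_left₀ hl0]
      · simp only [hN, hN₁, consMat, Matrix.of_apply, Fin.cons_succ, Fin.cons_zero]
        exact hγq (J k)
      · simp only [hN, hN₁, consMat, Matrix.of_apply, Fin.cons_succ, Fin.cons_zero]
        rw [mul_inv_cancel_left₀ hl0]
      · simp only [hN, hN₁, consMat, Matrix.of_apply, Fin.cons_succ, Fin.cons_zero]
        rw [mul_inv_cancel_left₀ hl0]
    rw [h1, Matrix.det_smul, Fintype.card_fin]
  have hder : ∀ (F : Derivation ℤ M M) (k : Fin (m + 3)),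
      (γ l)⁻¹ * F (γ (J k)) = F (q (J k)) + (γ l)⁻¹ * F (γ l) * q (J k) := by
    intro F k
    conv_lhs => rw [hγq (J k)]
    rw [Derivation.leibniz, smul_eq_mul, smul_eq_mul]
    field_simp
  have d2 : N₁.det = N₂.det := by
    refine Matrix.det_eq_of_forall_row_eq_smul_add_const
      (Fin.cons ((γ l)⁻¹ * W (γ l)) (Fin.cons 0 (Fin.cons ((γ l)⁻¹ * D (γ l))
        fun i => (γ l)⁻¹ * E i (γ l))) : Fin (m + 3) → M) (Fin.succ 0) ?_ ?_
    · simp
    · intro i k
      refine Fin.cases ?_ (fun i => Fin.cases ?_ (fun i => Fin.cases ?_ (fun i => ?_) i) i) i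
      · simp only [hN₁, hN₂, consMat, Matrix.of_apply, Fin.cons_succ, Fin.cons_zero]
        exact hder W k
      · simp [hN₁, hN₂, consMat]
      · simp only [hN₁, hN₂, consMat, Matrix.of_apply, Fin.cons_succ, Fin.cons_zero]
        exact hder D k
      · simp only [hN₁, hN₂, consMat, Matrix.of_apply, Fin.cons_succ, Fin.cons_zero]
        exact hder (E i) k
  have d3 : N₂.det = N₃.det := by
    refine Matrix.det_eq_of_forall_row_eq_smul_add_const
      (Fin.cons (W π / D π) (Fin.cons 0 (Fin.cons 0 fun i => E i π / D π)) : Fin (m + 3) → M)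
      (Fin.succ (Fin.succ 0)) ?_ ?_
    · rw [Fin.cons_succ, Fin.cons_succ, Fin.cons_zero]
    · intro i k
      refine Fin.cases ?_ (fun i => Fin.cases ?_ (fun i => Fin.cases ?_ (fun i => ?_) i) i) i
      · simp only [hN₂, hN₃, consMat, Matrix.of_apply, Fin.cons_succ, Fin.cons_zero]
        rw [sub_add_cancel]
      · simp [hN₂, hN₃, consMat]
      · simp only [hN₂, hN₃, consMat, Matrix.of_apply, Fin.cons_succ, Fin.cons_zero, zero_mul,
          add_zero]
      · simp only [hN₂, hN₃, consMat, Matrix.of_apply, Fin.cons_succ, Fin.cons_zero]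
        rw [sub_add_cancel]
  have d4 : w.1 N₃.det ≤ exp (e : ℤ) := by
    refine (det_weights w.1 N₃ (Fin.cons 1 (Fin.cons 1 (Fin.cons (exp (e : ℤ)) fun _ => 1)) :
      Fin (m + 3) → ℤᵐ⁰) (fun _ => 1) ?_).trans (le_of_eq ?_)
    · intro i k
      rw [mul_one]
      refine Fin.cases ?_ (fun i => Fin.cases ?_ (fun i => Fin.cases ?_ (fun i => ?_) i) i) i
      · simp only [hN₃, consMat, Matrix.of_apply, Fin.cons_zero]
        exact corr W hWκ hWX _ (hqv _)
      · simp only [hN₃, consMat, Matrix.of_apply, Fin.cons_succ, Fin.cons_zero]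
        exact hqv _
      · simp only [hN₃, consMat, Matrix.of_apply, Fin.cons_succ, Fin.cons_zero]
        exact hDp _ (hqv _)
      · simp only [hN₃, consMat, Matrix.of_apply, Fin.cons_succ, Fin.cons_zero]
        exact corr (E i) (hEκ i) (hEX i) _ (hqv _)
    · rw [Finset.prod_const_one, mul_one, Fin.prod_univ_succ, Fin.prod_univ_succ,
        Fin.prod_univ_succ]
      simp only [Fin.cons_succ, Fin.cons_zero, one_mul, Finset.prod_const_one, mul_one]
  rw [d1, d2, d3, map_mul, map_pow, hlv]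
  exact mul_le_mul' le_rfl d4

end

end Pool.Agent.Lib.MP_44a246_ntU
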