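import Mathlib

/-!
The derivatives of the coordinates of a point are combinations of the derivatives of algebraically
independent coordinates.
-/

namespace Pool.Agent.Lib.MP_44a246_ntU

private theorem der_eval {M : Type*} [Field M] (D : Derivation ℤ M M) (z : M) (P : Polynomial M) :
    D (P.eval z) = P.derivative.eval z * D z + ∑ i ∈ Finset.range (P.natDegree + 1), D (P.coeff i) * z ^ i := by
  have key : D (P.eval z) = P.derivative.eval z * D z + P.sum (fun i a => D a * z ^ i) := by
    induction P using Polynomial.induction_on' with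
    | add p q hp hq =>
      rw [Polynomial.eval_add, map_add, hp, hq, Polynomial.derivative_add, Polynomial.eval_add,
        Polynomial.sum_add_index]
      · ring
      · intro i; simp
      · intro i a b; rw [map_add, add_mul]
    | monomial n a =>
      rw [Polynomial.eval_monomial, Derivation.leibniz, Derivation.leibniz_pow,
        Polynomial.derivative_monomial, Polynomial.eval_monomial, Polynomial.sum_monomial_index]
      · simp only [smul_eq_mul, nsmul_eq_mul]
        ring
      · simp
  rw [key, Polynomial.sum_over_range]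
  intro i; simp

/-- the derivative of an element which is algebraic over a subfield of elements with this property -/
theorem exists_comb_of_algebraic {k M : Type*} [Field k] [CharZero k] [Field M] [Algebra k M]
    {τ : Type*} [Fintype τ] {y : τ → M} {z : M}
    (hz : IsAlgebraic (IntermediateField.adjoin k (Set.range y)) z) :
    ∃ c : τ → M, ∀ D : Derivation ℤ M M, (∀ u : k, D (algebraMap k M u) = 0) →
      D z = ∑ t, c t * D (y t) := by
  classical
  set K := IntermediateField.adjoin k (Set.range y) with hK
  have hG : ∀ x ∈ K, ∃ c : τ → M, ∀ D : Derivation ℤ M M, (∀ u : k, D (algebraMap k M u) = 0) →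
      D x = ∑ t, c t * D (y t) := by
    intro x hx
    induction hx using IntermediateField.adjoin_induction with
    | mem x hx =>
      obtain ⟨t, rfl⟩ := hx
      refine ⟨Pi.single t 1, fun D _ => ?_⟩
      rw [Finset.sum_eq_single t]
      · simp
      · intro s _ hs; rw [Pi.single_eq_of_ne hs, zero_mul]
      · intro h; exact absurd (Finset.mem_univ t) h
    | algebraMap x => exact ⟨0, fun D hD => by rw [hD x]; simp⟩
    | add a b _ _ ha hb =>
      obtain ⟨c, hc⟩ := ha
      obtain ⟨d, hd⟩ := hb
      refine ⟨c + d, fun D hD => ?_⟩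
      rw [map_add, hc D hD, hd D hD, ← Finset.sum_add_distrib]
      exact Finset.sum_congr rfl fun t _ => by rw [Pi.add_apply]; ring
    | inv a _ ha =>
      obtain ⟨c, hc⟩ := ha
      refine ⟨fun t => -a⁻¹ ^ 2 * c t, fun D hD => ?_⟩
      rw [Derivation.leibniz_inv, hc D hD, smul_eq_mul, Finset.mul_sum]
      exact Finset.sum_congr rfl fun t _ => by ring
    | mul a b _ _ ha hb =>
      obtain ⟨c, hc⟩ := ha
      obtain ⟨d, hd⟩ := hb
      refine ⟨fun t => a * d t + b * c t, fun D hD => ?_⟩
      rw [Derivation.leibniz, hc D hD, hd D hD, smul_eq_mul, smul_eq_mul, Finset.mul_sum,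
        Finset.mul_sum, ← Finset.sum_add_distrib]
      exact Finset.sum_congr rfl fun t _ => by ring
  have : CharZero K := charZero_of_injective_algebraMap (algebraMap k K).injective
  have hzi : IsIntegral K z := hz.isIntegral
  set P := (minpoly K z).map (algebraMap K M) with hP
  have hPz : P.eval z = 0 := by
    rw [hP, Polynomial.eval_map_algebraMap, minpoly.aeval]
  have hsep : (minpoly K z).Separable := (minpoly.irreducible hzi).separable
  have hP' : P.derivative.eval z ≠ 0 := by
    have h1 : (minpoly K z).aeval z = 0 := minpoly.aeval K z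
    have h2 := hsep.aeval_derivative_ne_zero h1
    rw [hP, Polynomial.derivative_map, Polynomial.eval_map_algebraMap]
    exact h2
  have hco : ∀ i, ∃ c : τ → M, ∀ D : Derivation ℤ M M, (∀ u : k, D (algebraMap k M u) = 0) →
      D (P.coeff i) = ∑ t, c t * D (y t) := by
    intro i
    rw [hP, Polynomial.coeff_map]
    exact hG _ ((minpoly K z).coeff i).2
  choose c hc using hco
  refine ⟨fun t => -(P.derivative.eval z)⁻¹ * ∑ i ∈ Finset.range (P.natDegree + 1), c i t * z ^ i,
    fun D hD => ?_⟩
  have h1 := der_eval D z P
  rw [hPz, map_zero] at h1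
  have h2 : ∑ i ∈ Finset.range (P.natDegree + 1), D (P.coeff i) * z ^ i
      = ∑ t, (∑ i ∈ Finset.range (P.natDegree + 1), c i t * z ^ i) * D (y t) := by
    simp only [Finset.sum_mul]
    rw [Finset.sum_comm]
    refine Finset.sum_congr rfl fun i _ => ?_
    rw [hc i D hD, Finset.sum_mul]
    exact Finset.sum_congr rfl fun t _ => by ring
  rw [h2] at h1
  have h3 : D z = -(P.derivative.eval z)⁻¹ *
      ∑ t, (∑ i ∈ Finset.range (P.natDegree + 1), c i t * z ^ i) * D (y t) := by
    field_simp
    linear_combination -h1
  rw [h3, Finset.mul_sum]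
  exact Finset.sum_congr rfl fun t _ => by ring

/-- **The derivatives of the coordinates.** -/
theorem exists_der_comb {k M : Type*} [Field k] [CharZero k] [Field M] [Algebra k M] {n r : ℕ}
    {γ : Fin n → M}
    (h : ∀ (p : ℕ) (j : Fin p → Fin n), AlgebraicIndependent k (fun i => γ (j i)) → p ≤ r) :
    ∃ (p : ℕ) (j : Fin p → Fin n) (c : Fin n → Fin p → M), p ≤ r ∧
      ∀ D : Derivation ℤ M M, (∀ u : k, D (algebraMap k M u) = 0) →
        ∀ i, D (γ i) = ∑ t, c i t * D (γ (j t)) := by
  classical
  let Q : ℕ → Prop := fun p => ∃ j : Fin p → Fin n, AlgebraicIndependent k (fun i => γ (j i))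
  have hQ0 : Q 0 := ⟨Fin.elim0, by
    have : IsEmpty (Fin 0) := inferInstance
    rw [algebraicIndependent_empty_type_iff]
    exact (algebraMap k M).injective⟩
  obtain ⟨p, hpr, ⟨j, hj⟩, hgr⟩ : ∃ p, p ≤ r ∧ Q p ∧ ∀ q, q ≤ r → Q q → q ≤ p :=
    ⟨Nat.findGreatest Q r, Nat.findGreatest_le r, Nat.findGreatest_spec (P := Q) (Nat.zero_le r) hQ0,
      fun q hq hQ => Nat.le_findGreatest hq hQ⟩
  have hmax : ∀ i, IsAlgebraic (IntermediateField.adjoin k (Set.range fun t => γ (j t))) (γ i) := by
    intro i
    by_contra htr
    have h1 : AlgebraicIndependent k (fun o : Option (Fin p) => o.elim (γ i) (fun t => γ (j t))) :=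
      (hj.option_iff_transcendental _).mpr
        (fun hal => htr (IntermediateField.isAlgebraic_adjoin_iff.mpr hal))
    have h2 : Q (p + 1) := by
      refine ⟨Fin.cons i j, ?_⟩
      have h3 := h1.comp (finSuccEquiv p) (finSuccEquiv p).injective
      have h4 : (fun t : Fin (p + 1) => γ ((Fin.cons i j : Fin (p + 1) → Fin n) t))
          = (fun o : Option (Fin p) => o.elim (γ i) (fun t => γ (j t))) ∘ finSuccEquiv p := by
        funext t
        refine Fin.cases ?_ (fun t => ?_) t
        · simp
        · simp
      rw [h4]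
      exact h3
    have h3 : p + 1 ≤ r := by
      obtain ⟨j', hj'⟩ := h2
      exact h _ j' hj'
    have h4 := hgr _ h3 h2
    omega
  choose c hc using fun i => exists_comb_of_algebraic (hmax i)
  exact ⟨p, j, c, hpr, fun D hD i => hc i D hD⟩

end Pool.Agent.Lib.MP_44a246_ntU
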