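import Mathlib
import Pool.Agent.Lib.MP_44a246_ntU.U05

/-!
The space spanned by a point of a projective variety and its derivatives.
-/

namespace Pool.Agent.Lib.MP_44a246_ntU

open Module

/-- **The tangent space**: if at most `r` of the affine coordinates of a point are algebraically
independent, the point and its derivatives lie in a space of dimension at most `r + 1`. -/
theorem exists_tangent {k M : Type*} [Field k] [CharZero k] [Field M] [Algebra k M] {n r : ℕ}
    {γ : Fin n → M} {l : Fin n} (hl : γ l ≠ 0)
    (h : ∀ (p : ℕ) (j : Fin p → Fin n), AlgebraicIndependent k (fun i => γ (j i) / γ l) → p ≤ r) :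
    ∃ T : Submodule M (Fin n → M), finrank M T ≤ r + 1 ∧ γ ∈ T ∧
      ∀ D : Derivation ℤ M M, (∀ u : k, D (algebraMap k M u) = 0) → (fun i => D (γ i)) ∈ T := by
  set q : Fin n → M := fun i => γ i / γ l with hq
  obtain ⟨p, j, c, hpr, hc⟩ := exists_der_comb (γ := q) h
  set v : Fin (p + 1) → Fin n → M := Fin.cons q (fun t i => c i t) with hv
  have hv0 : q ∈ Submodule.span M (Set.range v) := Submodule.subset_span ⟨0, rfl⟩
  have hvs : ∀ t : Fin p, (fun i => c i t) ∈ Submodule.span M (Set.range v) :=
    fun t => Submodule.subset_span ⟨t.succ, rfl⟩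
  have hγ : γ = γ l • q := by
    funext i
    simp only [hq, Pi.smul_apply, smul_eq_mul]
    field_simp
  refine ⟨Submodule.span M (Set.range v), ?_, ?_, fun D hD => ?_⟩
  · have h1 : finrank M (Submodule.span M (Set.range v)) ≤ Fintype.card (Fin (p + 1)) :=
      finrank_range_le_card v
    rw [Fintype.card_fin] at h1
    omega
  · rw [hγ]
    exact Submodule.smul_mem _ _ hv0
  · have h2 : (fun i => D (γ i)) = γ l • (∑ t, D (q (j t)) • (fun i => c i t)) + D (γ l) • q := by
      funext i
      have h3 : γ i = γ l * q i := by
        simp only [hq]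
        field_simp
      rw [h3, Derivation.leibniz, hc D hD i]
      simp only [Pi.add_apply, Pi.smul_apply, Finset.sum_apply, smul_eq_mul]
      congr 1
      · congr 1
        exact Finset.sum_congr rfl fun t _ => by ring
      · ring
    rw [h2]
    exact Submodule.add_mem _ (Submodule.smul_mem _ _ (Submodule.sum_mem _ fun t _ =>
      Submodule.smul_mem _ _ (hvs t))) (Submodule.smul_mem _ _ hv0)

end Pool.Agent.Lib.MP_44a246_ntU
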