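import Mathlib
import Pool.Agent.Lib.MP_44a246_ntS.SP8

/-!
The independence of the derivatives at a point of a plane curve.
-/

namespace Pool.Agent.Lib.MP_44a246_ntU

open Pool.Agent.Lib.MP_44a246_ntS
open Polynomial Module

/-- one of the vectors `w` can be removed -/
theorem exists_removeV {κ : Type*} [Field κ] {m n : ℕ} {v₀ v₁ : Fin n → κ}
    {w : Fin (m + 1) → Fin n → κ} (h01 : LinearIndependent κ ![v₀, v₁])
    (hr : m + 2 ≤ finrank κ (Submodule.span κ (insert v₀ (insert v₁ (Set.range w))))) :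
    ∃ i₀ : Fin (m + 1), LinearIndependent κ
      (Fin.cons v₀ (Fin.cons v₁ fun i => w (i₀.succAbove i)) : Fin (m + 2) → Fin n → κ) := by
  classical
  set f : Fin (m + 3) → (Fin n → κ) := Fin.cons v₀ (Fin.cons v₁ w) with hf
  have hf0 : f 0 = v₀ := rfl
  have hf1 : f 1 = v₁ := rfl
  have hf2 : ∀ i : Fin (m + 1), f i.succ.succ = w i := fun i => rfl
  have hf01 : LinearIndepOn κ f {0, 1} := by
    rw [LinearIndepOn.pair_iff (i := 0) (j := 1) f (by simp), hf0, hf1]
    exact LinearIndependent.pair_iff.1 h01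
  obtain ⟨b, -, hb1, hb2, hb3⟩ := exists_linearIndepOn_extension hf01 (Set.subset_univ _)
  have hcard : m + 2 ≤ Fintype.card b := by
    have h1 : finrank κ (Submodule.span κ (f '' b)) = Fintype.card b := by
      rw [Set.image_eq_range]
      exact finrank_span_eq_card hb3
    rw [← h1]
    refine hr.trans (Submodule.finrank_mono (Submodule.span_le.2 ?_))
    intro x hx
    apply hb2
    rw [Set.image_univ]
    rcases hx with rfl | rfl | ⟨i, rfl⟩
    · exact ⟨0, hf0⟩
    · exact ⟨1, hf1⟩
    · exact ⟨i.succ.succ, hf2 i⟩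
  obtain ⟨i₀, hi₀⟩ : ∃ i₀ : Fin (m + 1), ∀ j, j ≠ i₀.succ.succ → j ∈ b := by
    by_cases hall : ∀ j, j ∈ b
    · exact ⟨0, fun j _ => hall j⟩
    · push Not at hall
      obtain ⟨j₀, hj₀⟩ := hall
      have h0 : j₀ ≠ 0 := fun h => hj₀ (h ▸ hb1 (by simp))
      have h1 : j₀ ≠ 1 := fun h => hj₀ (h ▸ hb1 (by simp))
      obtain ⟨j₁, rfl⟩ := Fin.exists_succ_eq.2 h0
      have h2 : j₁ ≠ 0 := by
        rintro rfl
        exact h1 rfl
      obtain ⟨i₀, rfl⟩ := Fin.exists_succ_eq.2 h2
      refine ⟨i₀, fun j hj => ?_⟩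
      by_contra hjb
      have h3 : Fintype.card b + 2 ≤ m + 3 := by
        have h4 : b.toFinset ∪ {i₀.succ.succ, j} ⊆ (Finset.univ : Finset (Fin (m + 3))) :=
          Finset.subset_univ _
        have h5 := Finset.card_le_card h4
        rw [Finset.card_univ, Fintype.card_fin, Finset.card_union_of_disjoint,
          Finset.card_pair hj.symm, Set.toFinset_card] at h5
        · exact h5
        · rw [Finset.disjoint_right]
          intro x hx hxb
          rw [Set.mem_toFinset] at hxb
          rw [Finset.mem_insert, Finset.mem_singleton] at hx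
          rcases hx with rfl | rfl
          · exact hj₀ hxb
          · exact hjb hxb
      omega
  set g : Fin (m + 2) → (Fin n → κ) := Fin.cons v₀ (Fin.cons v₁ fun i => w (i₀.succAbove i))
    with hg
  have hgf : g = f ∘ (i₀.succ.succ).succAbove := by
    funext j
    refine Fin.cases ?_ (fun j => Fin.cases ?_ (fun j => ?_) j) j
    · rfl
    · rw [Function.comp_apply, Fin.succ_succAbove_succ, Fin.succ_succAbove_zero]
      rfl
    · rw [Function.comp_apply, Fin.succ_succAbove_succ, Fin.succ_succAbove_succ]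
      rfl
  have hgli : LinearIndependent κ g := by
    rw [hgf]
    have h1 : LinearIndependent κ (fun i : b => f i) := hb3
    exact h1.comp (fun j => (⟨(i₀.succ.succ).succAbove j, hi₀ _ (Fin.succAbove_ne _ _)⟩ : b))
      (fun a a' haa => Fin.succAbove_right_injective (congrArg Subtype.val haa))
  exact ⟨i₀, hgli⟩

/-- The derivatives at a point of the curve are independent. -/
theorem indep_atV {κ : Type*} [Field κ] {m n : ℕ} {A : κ[X][X]} {Bv : Fin n → κ[X][X]}
    {ξ₀ ξ₁ x : Fin n → κ} {y₁ y β : κ} (hA : A.evalEval y₁ y = 0)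
    (hAY : (derivative A).evalEval y₁ y ≠ 0)
    (hβ : β ≠ 0) (hB : ∀ j, β * x j = (Bv j).evalEval y₁ y)
    (h0 : A ∣ ∑ j, C (C (ξ₀ j)) * Bv j - derivative A)
    (h1 : A ∣ ∑ j, C (C (ξ₁ j)) * Bv j - C X * derivative A)
    (e : Fin (m + 1) → Derivation ℤ κ κ)
    (hx : LinearIndependent κ (Fin.cons x (fun i k => e i (x k)) : Fin (m + 2) → Fin n → κ)) :
    ∃ i₀ : Fin (m + 1), LinearIndependent κ
      (Fin.cons (fun j => (Bv j).evalEval y₁ y)
        (Fin.cons (fun j => (vf A (cX κ) (Bv j)).evalEval y₁ y)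
          fun i j => (vf A (cE (e (i₀.succAbove i))) (Bv j)).evalEval y₁ y) :
        Fin (m + 2) → Fin n → κ) := by
  classical
  set α := (derivative A).evalEval y₁ y with hα
  set v₀ : Fin n → κ := fun j => (Bv j).evalEval y₁ y with hv₀
  set v₁ : Fin n → κ := fun j => (vf A (cX κ) (Bv j)).evalEval y₁ y with hv₁
  set w : Fin (m + 1) → Fin n → κ := fun i j => (vf A (cE (e i)) (Bv j)).evalEval y₁ y
    with hw
  have hv₀x : ∀ j, v₀ j = β * x j := fun j => (hB j).symm
  have hA' : ev (RingHom.id κ) y₁ y A = 0 := by rw [ev_id]; exact hA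
  -- the derivatives of `v₀`
  have hder : ∀ i j, α * e i (v₀ j) = w i j + e i y₁ * v₁ j := by
    intro i j
    have h2 := ev_vf (RingHom.id κ) (e i) (e i) (fun c => rfl) hA' (Bv j)
    simp only [ev_id] at h2
    exact h2
  refine exists_removeV (v₀ := v₀) (v₁ := v₁) (w := w) ?_ ?_
  · -- independence of the two first vectors
    have key : ∀ ξ : Fin n → κ, ∀ V : Derivation ℤ κ[X][X] κ[X][X],
        V (∑ j, C (C (ξ j)) * Bv j) = ∑ j, (C (C (ξ j)) * V (Bv j) + Bv j * V (C (C (ξ j)))) := by
      intro ξ V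
      rw [map_sum]
      refine Finset.sum_congr rfl fun j _ => ?_
      rw [Derivation.leibniz, smul_eq_mul, smul_eq_mul]
    have hVC : ∀ c : κ, vf A (cX κ) (C (C c)) = 0 := by
      intro c
      rw [vf_apply, cX_C_C, derivative_C]
      ring
    have hev : ∀ ξ : Fin n → κ,
        (vf A (cX κ) (∑ j, C (C (ξ j)) * Bv j)).evalEval y₁ y = ∑ j, ξ j * v₁ j := by
      intro ξ
      rw [key, evalEval_finsetSum]
      refine Finset.sum_congr rfl fun j _ => ?_
      rw [hVC, mul_zero, add_zero, evalEval_mul, evalEval_C, eval_C]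
    have hev0 : ∀ ξ : Fin n → κ,
        (∑ j, C (C (ξ j)) * Bv j).evalEval y₁ y = ∑ j, ξ j * v₀ j := by
      intro ξ
      rw [evalEval_finsetSum]
      refine Finset.sum_congr rfl fun j _ => ?_
      rw [evalEval_mul, evalEval_C, eval_C]
    obtain ⟨q₀, hq₀⟩ := h0
    obtain ⟨q₁, hq₁⟩ := h1
    have hq₀' : ∑ j, C (C (ξ₀ j)) * Bv j = derivative A + A * q₀ := by rw [← hq₀]; ring
    have hq₁' : ∑ j, C (C (ξ₁ j)) * Bv j = C X * derivative A + A * q₁ := by rw [← hq₁]; ring
    set c₀ := (vf A (cX κ) (derivative A)).evalEval y₁ y with hc₀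
    have e00 : ∑ j, ξ₀ j * v₀ j = α := by
      rw [← hev0, hq₀', evalEval_add, evalEval_mul, hA, zero_mul, add_zero]
    have e10 : ∑ j, ξ₁ j * v₀ j = y₁ * α := by
      rw [← hev0, hq₁', evalEval_add, evalEval_mul, evalEval_mul, hA, zero_mul, add_zero,
        evalEval_C, eval_X]
    have e01 : ∑ j, ξ₀ j * v₁ j = c₀ := by
      rw [← hev, hq₀', map_add, vf_mul, evalEval_add, evalEval_mul, hA, zero_mul, add_zero]
    have e11 : ∑ j, ξ₁ j * v₁ j = y₁ * c₀ + α * α := by
      rw [← hev, hq₁', map_add, vf_mul, evalEval_add, evalEval_mul, hA, zero_mul, add_zero,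
        Derivation.leibniz, smul_eq_mul, smul_eq_mul, evalEval_add, evalEval_mul, evalEval_mul,
        evalEval_C, eval_X]
      have h3 : vf A (cX κ) (C X) = derivative A := by
        rw [vf_apply, cX_C_X, derivative_C]
        ring
      rw [h3]
    rw [LinearIndependent.pair_iff]
    intro s t hst
    have f0 : s * α + t * c₀ = 0 := by
      have := congrArg (fun u : Fin n → κ => ∑ j, ξ₀ j * u j) hst
      simp only [Pi.add_apply, Pi.smul_apply, smul_eq_mul, Pi.zero_apply, mul_zero,
        Finset.sum_const_zero, mul_add, Finset.sum_add_distrib] at this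
      rw [← e00, ← e01, Finset.mul_sum, Finset.mul_sum, ← this]
      congr 1 <;> exact Finset.sum_congr rfl fun j _ => by ring
    have f1 : s * (y₁ * α) + t * (y₁ * c₀ + α * α) = 0 := by
      have := congrArg (fun u : Fin n → κ => ∑ j, ξ₁ j * u j) hst
      simp only [Pi.add_apply, Pi.smul_apply, smul_eq_mul, Pi.zero_apply, mul_zero,
        Finset.sum_const_zero, mul_add, Finset.sum_add_distrib] at this
      rw [← e10, ← e11, Finset.mul_sum, Finset.mul_sum, ← this]
      congr 1 <;> exact Finset.sum_congr rfl fun j _ => by ring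
    have ht : t * (α * α) = 0 := by linear_combination f1 - y₁ * f0
    have ht0 : t = 0 := (mul_eq_zero.mp ht).resolve_right (mul_ne_zero hAY hAY)
    refine ⟨?_, ht0⟩
    rw [ht0, zero_mul, add_zero] at f0
    exact (mul_eq_zero.mp f0).resolve_right hAY
  · -- the rank
    set W := Submodule.span κ (insert v₀ (insert v₁ (Set.range w))) with hW
    have m0 : v₀ ∈ W := Submodule.subset_span (Set.mem_insert _ _)
    have m1 : v₁ ∈ W := Submodule.subset_span (Set.mem_insert_of_mem _ (Set.mem_insert _ _))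
    have m2 : ∀ i, w i ∈ W := fun i => Submodule.subset_span
      (Set.mem_insert_of_mem _ (Set.mem_insert_of_mem _ ⟨i, rfl⟩))
    have n0 : x ∈ W := by
      have : x = β⁻¹ • v₀ := by
        funext j
        rw [Pi.smul_apply, smul_eq_mul, hv₀x, ← mul_assoc, inv_mul_cancel₀ hβ, one_mul]
      rw [this]
      exact W.smul_mem _ m0
    have n1 : ∀ i, (fun k => e i (x k)) ∈ W := by
      intro i
      have h5 : (fun k => e i (x k)) =
          (α * β)⁻¹ • (w i + e i y₁ • v₁) - (β⁻¹ * e i β) • x := by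
        funext j
        have h6 := hder i j
        rw [hv₀x, Derivation.leibniz, smul_eq_mul, smul_eq_mul] at h6
        simp only [Pi.sub_apply, Pi.smul_apply, Pi.add_apply, smul_eq_mul]
        rw [← h6]
        field_simp
        ring
      rw [h5]
      exact W.sub_mem (W.smul_mem _ (W.add_mem (m2 i) (W.smul_mem _ m1))) (W.smul_mem _ n0)
    have hle : Submodule.span κ (Set.range
        (Fin.cons x (fun i k => e i (x k)) : Fin (m + 2) → Fin n → κ)) ≤ W := by
      rw [Submodule.span_le]
      rintro _ ⟨i, rfl⟩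
      refine Fin.cases ?_ (fun i => ?_) i
      · exact n0
      · exact n1 i
    have h7 := finrank_span_eq_card hx
    rw [Fintype.card_fin] at h7
    rw [← h7]
    exact Submodule.finrank_mono hle

end Pool.Agent.Lib.MP_44a246_ntU
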