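import Mathlib
import Pool.Agent.Lib.MP_44a246_ntU.U07

/-!
Specialisation of linear independence.
-/

namespace Pool.Agent.Lib.MP_44a246_ntU

/-- linear independence of the specialised rows implies linear independence of the rows -/
theorem indep_of_spec {R κ M : Type*} [CommRing R] [Field κ] [Field M] (φ : R →+* κ) (ψ : R →+* M)
    (hspec : ∀ G, φ G ≠ 0 → ψ G ≠ 0) {p n : ℕ} {N : Fin p → Fin n → R}
    (h : LinearIndependent κ (fun i j => φ (N i j) : Fin p → Fin n → κ)) :
    LinearIndependent M (fun i j => ψ (N i j) : Fin p → Fin n → M) := by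
  obtain ⟨J, hJ⟩ := exists_minor_ne h
  have h1 : φ (Matrix.of fun i k => N i (J k)).det ≠ 0 := by
    rw [RingHom.map_det]
    exact hJ
  have h2 := hspec _ h1
  rw [RingHom.map_det] at h2
  exact indep_of_minor (J := J) h2

end Pool.Agent.Lib.MP_44a246_ntU
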