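import Mathlib
import Pool.Agent.Lib.MP_44a246_ntU.U07
import Pool.Agent.Lib.MP_44a246_ntU.U08
import Pool.Agent.Lib.MP_44a246_ntS.SP5c

/-!
A covering family of curves in a hypersurface section of a variety: the global inequality.
-/

namespace Pool.Agent.Lib.MP_44a246_ntU

open Pool.Agent.Lib.MP_e52354_nt
open Pool.Agent.Lib.MP_44a246_nt
open Pool.Agent.Lib.MP_44a246_ntL
open Pool.Agent.Lib.MP_44a246_ntS
open WithZero Polynomial Module

section

variable {κ M : Type*} [Field κ] [IsAlgClosed κ] [CharZero κ] [Field M] [Algebra κ M]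
  [Algebra κ[X] M] [IsScalarTower κ κ[X] M]
  [Algebra (RatFunc κ) M] [IsScalarTower κ[X] (RatFunc κ) M]
  [Algebra (Rinf κ) M] [IsScalarTower (Rinf κ) (RatFunc κ) M]
  [FiniteDimensional (RatFunc κ) M]

/-- **The global inequality.** -/
theorem wedge_globalV {m n d : ℕ} {a : (Fin n →₀ ℕ) → κ} (D : Derivation ℤ M M)
    (hκ : ∀ u : κ, D (algebraMap κ M u) = 0) (hX : D (algebraMap κ[X] M X) = 1)
    (E : Fin m → Derivation ℤ M M)
    (hEκ : ∀ i, ∀ u : κ, ∃ u' : κ, E i (algebraMap κ M u) = algebraMap κ M u')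
    (hEX : ∀ i, ∃ u : κ, E i (algebraMap κ[X] M X) = algebraMap κ M u)
    (hEa : ∀ i, ∀ I ∈ expo (Fin n) d, E i (algebraMap κ M (a I)) = 0)
    (W : (Fin n →₀ ℕ) → Derivation ℤ M M)
    (hWκ : ∀ I, ∀ u : κ, ∃ u' : κ, W I (algebraMap κ M u) = algebraMap κ M u')
    (hWX : ∀ I, ∃ u : κ, W I (algebraMap κ[X] M X) = algebraMap κ M u)
    (hWa : ∀ I ∈ expo (Fin n) d, ∀ J ∈ expo (Fin n) d,
      W I (algebraMap κ M (a J)) = if I = J then 1 else 0)
    {γ : Fin n → M} (hF : Fval d (fun I => algebraMap κ M (a I)) γ = 0)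
    (hind : LinearIndependent M (Fin.cons γ (Fin.cons (fun k => D (γ k)) fun i k => E i (γ k)) :
      Fin (m + 2) → Fin n → M))
    {T : Submodule M (Fin n → M)} (hT : finrank M T ≤ m + 3) (hγT : γ ∈ T)
    (hDT : (fun k => D (γ k)) ∈ T) (hET : ∀ i, (fun k => E i (γ k)) ∈ T)
    (hWT : ∀ I ∈ expo (Fin n) d, (fun k => W I (γ k)) ∈ T) :
    (d : ℤ) * height κ γ ≤ (m + 3) * height κ γ + ramDeg κ M (RatFunc κ) := by
  classical
  set aM : (Fin n →₀ ℕ) → M := fun I => algebraMap κ M (a I) with haM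
  set g : Fin n → M := grad d aM γ with hg
  set A : Fin (m + 2) → Fin n → M :=
    Fin.cons γ (Fin.cons (fun k => D (γ k)) fun i k => E i (γ k)) with hA
  have hγ : γ ≠ 0 := hind.ne_zero 0
  have hvγ : ∀ w : Place κ M, vmax w.1 γ ≠ 0 := fun w h => hγ ((vmax_eq_zero_iff w.1).mp h)
  -- orthogonality
  have horth : ∀ i, ∑ k, g k * A i k = 0 := by
    intro i
    refine Fin.cases ?_ (fun i => ?_) i
    · show ∑ k, g k * γ k = 0
      rw [hg, grad_euler, hF, mul_zero]
    · refine Fin.cases ?_ (fun i => ?_) i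
      · show ∑ k, g k * D (γ k) = 0
        have h1 := D_Fval d aM D γ
        rw [hF, map_zero, Finset.sum_eq_zero (fun I _ => by
          rw [haM]; simp only; rw [hκ, zero_mul]), zero_add] at h1
        exact h1.symm
      · show ∑ k, g k * E i (γ k) = 0
        have h1 := D_Fval d aM (E i) γ
        rw [hF, map_zero, Finset.sum_eq_zero (fun I hI => by
          rw [haM]; simp only; rw [hEa i I hI, zero_mul]), zero_add] at h1
        exact h1.symm
  have hWg : ∀ I ∈ expo (Fin n) d, ∑ k, g k * W I (γ k) = -mon γ I := by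
    intro I hI
    have h1 := D_Fval d aM (W I) γ
    have h2 : ∑ J ∈ expo (Fin n) d, W I (aM J) * mon γ J = mon γ I := by
      rw [Finset.sum_eq_single I]
      · rw [haM]
        simp only
        rw [hWa I hI I hI, if_pos rfl, one_mul]
      · intro J hJ hJI
        rw [haM]
        simp only
        rw [hWa I hI J hJ, if_neg (Ne.symm hJI), zero_mul]
      · intro h
        exact absurd hI h
    rw [hF, map_zero, h2] at h1
    exact (neg_eq_of_add_eq_zero_right h1.symm).symm
  have hsingle : ∀ l : Fin n, Finsupp.single l d ∈ expo (Fin n) d := by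
    intro l
    rw [mem_expo, Finsupp.degree_single]
  have hAT : ∀ i, A i ∈ T := by
    intro i
    refine Fin.cases ?_ (fun i => ?_) i
    · exact hγT
    · refine Fin.cases ?_ (fun i => ?_) i
      · exact hDT
      · exact hET i
  obtain ⟨l₀, hl₀⟩ : ∃ l, γ l ≠ 0 := by
    by_contra hcon
    push Not at hcon
    exact hγ (funext hcon)
  obtain ⟨J, lam, hlam0, hlam⟩ := exists_minor hT hind hAT horth
    (hWT (Finsupp.single l₀ d) (hsingle l₀)) (by
      rw [hWg _ (hsingle l₀), mon_single]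
      exact neg_ne_zero.2 (pow_ne_zero _ hl₀))
  have hAJ : (fun i k => A i (J k)) = (Fin.cons (fun k => γ (J k)) (Fin.cons (fun k => D (γ (J k)))
      fun i k => E i (γ (J k))) : Fin (m + 2) → Fin (m + 3) → M) := by
    funext i
    refine Fin.cases ?_ (fun i => ?_) i
    · rfl
    · refine Fin.cases ?_ (fun i => ?_) i
      · rfl
      · rfl
  -- the local estimate
  have hloc : ∀ w : Place κ M, log (w.1 lam) + (d : ℤ) * log (vmax w.1 γ) ≤
      ((m : ℤ) + 3) * log (vmax w.1 γ) + ((ramIdx (RatFunc κ) w.1 - 1 : ℕ) : ℤ) := by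
    intro w
    obtain ⟨l, -, hlv, -⟩ := exists_vmax w.1 hγ
    have h1 := wedge_placeV w D hκ hX (W (Finsupp.single l d)) (hWκ _) (hWX _) E hEκ hEX hγ J
    have h2 := hlam _ (hWT (Finsupp.single l d) (hsingle l))
    rw [hWg _ (hsingle l), mon_single, hAJ] at h2
    rw [h2, map_mul, Valuation.map_neg, map_pow, ← hlv] at h1
    have hl : w.1 lam ≠ 0 := (Valuation.ne_zero_iff w.1).mpr hlam0
    have h3 := (log_le_log (mul_ne_zero hl (pow_ne_zero _ (hvγ w)))
      (mul_ne_zero (pow_ne_zero _ (hvγ w)) exp_ne_zero)).mpr h1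
    rw [log_mul hl (pow_ne_zero _ (hvγ w)), log_mul (pow_ne_zero _ (hvγ w)) exp_ne_zero,
      log_pow, log_pow, log_exp, nsmul_eq_mul, nsmul_eq_mul] at h3
    push_cast at h3 ⊢
    linarith
  -- summation
  have htow : IsScalarTower κ (RatFunc κ) M := by
    refine IsScalarTower.of_algebraMap_eq fun c => ?_
    rw [IsScalarTower.algebraMap_apply κ κ[X] M, IsScalarTower.algebraMap_apply κ[X] (RatFunc κ) M,
      ← IsScalarTower.algebraMap_apply κ κ[X] (RatFunc κ)]
  let P : Finset (Place κ M) := (vmax_finite hγ).toFinset ∪ (place_finite hlam0).toFinset ∪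
    (ramIdx_finite (κ := κ) (K := RatFunc κ) (L := M)).toFinset
  have hP : ∀ v ∉ P, vmax v.1 γ = 1 ∧ v.1 lam = 1 ∧ ramIdx (RatFunc κ) v.1 = 1 := by
    intro v hv
    simp only [P, Finset.mem_union, Set.Finite.mem_toFinset, not_or, Set.mem_ofPred_eq,
      not_not] at hv
    exact ⟨hv.1.1, hv.1.2, hv.2⟩
  have hsum := Finset.sum_le_sum fun v (_ : v ∈ P) => hloc v
  simp only [Finset.sum_add_distrib, ← Finset.mul_sum] at hsum
  have e1 : ∑ v ∈ P, log (v.1 lam) = 0 := by
    rw [← product_formula (κ := κ) hlam0]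
    symm
    refine finsum_eq_sum_of_support_subset _ fun v hv => ?_
    by_contra hvP
    apply hv
    simp only
    rw [(hP v hvP).2.1, log_one]
  have e2 : ∑ v ∈ P, log (vmax v.1 γ) = height κ γ := by
    symm
    refine finsum_eq_sum_of_support_subset _ fun v hv => ?_
    by_contra hvP
    apply hv
    simp only
    rw [(hP v hvP).1, log_one]
  have e4 : ∑ v ∈ P, ((ramIdx (RatFunc κ) v.1 - 1 : ℕ) : ℤ) = (ramDeg κ M (RatFunc κ) : ℤ) := by
    rw [← Nat.cast_sum]
    congr 1
    symm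
    refine finsum_eq_sum_of_support_subset _ fun v hv => ?_
    by_contra hvP
    apply hv
    simp only
    rw [(hP v hvP).2.2, Nat.sub_self]
  rw [e1, e2, e4, zero_add] at hsum
  exact hsum

end

end Pool.Agent.Lib.MP_44a246_ntU
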