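import Mathlib
import Pool.Agent.Lib.MP_44a246_ntG.G0
import Pool.Agent.Lib.MP_44a246_ntS.SP9
import Pool.Agent.Lib.MP_44a246_ntU.U04
import Pool.Agent.Lib.MP_44a246_ntU.U06
import Pool.Agent.Lib.MP_44a246_ntU.U09
import Pool.Agent.Lib.MP_44a246_ntU.U10
import Pool.Agent.Lib.MP_44a246_ntU.U11

/-!
Step E for varieties: a generic point of a generic hypersurface section of a variety does not lie
on a plane curve of small degree.
-/

namespace Pool.Agent.Lib.MP_44a246_ntU

open Pool.Agent.Lib.MP_e52354_nt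
open Pool.Agent.Lib.MP_44a246_nt
open Pool.Agent.Lib.MP_44a246_ntL
open Pool.Agent.Lib.MP_44a246_ntS
open Pool.Agent.Lib.MP_44a246_ntG
open Polynomial Module

universe u

/-- the degrees of the form `F` and of the equations of `V` -/
def eV {ι : Type*} (d : ℕ) (e : ι → ℕ) : Option ι → ℕ := fun o => o.elim d e

/-- the coefficients of the form `F` and of the equations of `V` -/
noncomputable def aV {ι k L : Type*} [Field k] [Field L] [Algebra k L] {n : ℕ}
    (a : (Fin (n + 1) →₀ ℕ) → L) (f : ι → MvPolynomial (Fin (n + 1)) k) :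
    Option ι → (Fin (n + 1) →₀ ℕ) → L :=
  fun o => o.elim a (fun i I => algebraMap k L ((f i).coeff I))

/-- the value of a form is the value of the polynomial -/
theorem aeval_eq_Fval {k M : Type*} [Field k] [Field M] [Algebra k M] {n e : ℕ}
    {f : MvPolynomial (Fin n) k} (hf : f.IsHomogeneous e) (γ : Fin n → M) :
    MvPolynomial.aeval γ f = Fval e (fun I => algebraMap k M (f.coeff I)) γ := by
  classical
  rw [MvPolynomial.aeval_def, MvPolynomial.eval₂_eq]
  unfold Fval mon
  have hsub : f.support ⊆ expo (Fin n) e := by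
    intro I hI
    rw [mem_expo]
    rw [Finsupp.degree_eq_weight_one]
    exact hf (MvPolynomial.mem_support_iff.1 hI)
  rw [← Finset.sum_subset hsub]
  · refine Finset.sum_congr rfl fun I _ => ?_
    congr 1
    refine Finset.prod_subset (Finset.subset_univ _) fun j _ hj => ?_
    rw [Finsupp.notMem_support_iff.1 hj, pow_zero]
  · intro I _ hI
    simp only [MvPolynomial.notMem_support_iff.1 hI, map_zero, zero_mul]

/-- **Step E.** -/
theorem no_certV_der {κ : Type u} [Field κ] [IsAlgClosed κ] [CharZero κ] {k : Type*} [Field k]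
    [CharZero k] [Algebra k κ] {n m d b : ℕ} (hd : m + 2 + 2 * b ≤ d) {ι : Type*} {e : ι → ℕ}
    {f : ι → MvPolynomial (Fin (n + 1)) k} (hf : ∀ i, (f i).IsHomogeneous (e i))
    (hdim : ringKrullDim (MvPolynomial (Fin (n + 1)) k ⧸ Ideal.span (Set.range f)) ≤
      ((m + 3 : ℕ) : ℕ))
    {a : (Fin (n + 1) →₀ ℕ) → κ} (δ : Fin (m + 1) → Derivation ℤ κ κ)
    (hδk : ∀ i, ∀ u : k, δ i (algebraMap k κ u) = 0)
    (hδa : ∀ i, ∀ I ∈ expo (Fin (n + 1)) d, δ i (a I) = 0)
    (W : (Fin (n + 1) →₀ ℕ) → Derivation ℤ κ κ)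
    (hWk : ∀ I, ∀ u : k, W I (algebraMap k κ u) = 0)
    (hWa : ∀ I ∈ expo (Fin (n + 1)) d, ∀ J ∈ expo (Fin (n + 1)) d,
      W I (a J) = if I = J then 1 else 0)
    {x : Fin (n + 1) → κ}
    (hx : LinearIndependent κ
      (Fin.cons x (fun i k => δ i (x k)) : Fin (m + 2) → Fin (n + 1) → κ)) :
    ¬ CertV (eV d e) (aV a f) b x := by
  classical
  rintro ⟨A, Bv, ξ₀, ξ₁, ξ₂, c, y₁, y, hboxA, -, hc, hξ₀, hξ₁, hξ₂, hA, hAY, hB, hF, h0, h1, h2⟩
  set α := (derivative A).evalEval y₁ y with hα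
  obtain ⟨i₀, hind⟩ := indep_atV (β := α * c) hA hAY (mul_ne_zero hAY hc)
    (fun j => by rw [mul_assoc]; exact hB j) h0 h1 δ hx
  obtain ⟨g, hirr, hf0, hfdeg, hfA, hfz⟩ := exists_factor hA hAY
  refine with_curve hirr hf0 ?_
  intro M _ _ _ _ _ _ _ _ _ Y hY hgen hfin ht halg
  set φ := algebraMap κ M with hφ
  set X' : M := algebraMap κ[X] M X with hX'
  -- specialisation
  have hspec : ∀ G : κ[X][X], evalEvalRingHom y₁ y G ≠ 0 → ev φ X' Y G ≠ 0 := by
    intro G hG h3
    rw [hX', ev_aeval, hY] at h3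
    obtain ⟨q, rfl⟩ := h3
    apply hG
    rw [map_mul]
    have h4 : evalEvalRingHom y₁ y g = 0 := hfz
    rw [h4, zero_mul]
  have hevA : ∀ G : κ[X][X], A ∣ G → ev φ X' Y G = 0 := by
    intro G hG
    rw [hX', ev_aeval, hY]
    exact hfA.trans hG
  have hAP : ev φ X' Y A = 0 := hevA A dvd_rfl
  have hAYP : ev φ X' Y (derivative A) ≠ 0 := hspec _ hAY
  set ω := ev φ X' Y (derivative A) with hω
  set γ : Fin (n + 1) → M := fun j => ev φ X' Y (Bv j) with hγdef
  -- the derivations
  obtain ⟨D, hDκ, hDX⟩ := exists_der_ext ht halg (0 : Derivation ℤ κ κ) 1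
  choose E hEκ hEX using fun i : Fin (m + 1) => exists_der_ext ht halg (δ i) 0
  choose W' hWκ' hWX' using fun I => exists_der_ext ht halg (W I) 0
  have hDκ' : ∀ u : κ, D (algebraMap κ M u) = 0 := fun u => by
    rw [hDκ]
    simp
  have hD : ∀ G, ω * D (ev φ X' Y G) = ev φ X' Y (vf A (cX κ) G) := by
    intro G
    rw [ev_vf φ 0 D hDκ hAP G, hX', hDX, one_mul, vf_apply, cE_zero, cE_zero]
    simp
  have hE : ∀ i G, ω * E i (ev φ X' Y G) = ev φ X' Y (vf A (cE (δ i)) G) := by
    intro i G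
    rw [ev_vf φ (δ i) (E i) (hEκ i) hAP G, hX', hEX, zero_mul, add_zero]
  -- the relations between `γ` and the projection
  have hsum : ∀ ξ : Fin (n + 1) → κ, ev φ X' Y (∑ j, C (C (ξ j)) * Bv j) = ∑ j, φ (ξ j) * γ j := by
    intro ξ
    rw [map_sum]
    refine Finset.sum_congr rfl fun j _ => ?_
    rw [map_mul, ev_C_C]
  have r0 : ∑ j, φ (ξ₀ j) * γ j = ω := by
    rw [← hsum, ← sub_eq_zero, hω, ← map_sub]
    exact hevA _ h0
  have r1 : ∑ j, φ (ξ₁ j) * γ j = X' * ω := by
    rw [← hsum, ← sub_eq_zero, hω]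
    have h4 : X' * ev φ X' Y (derivative A) = ev φ X' Y (C X * derivative A) := by
      rw [map_mul, ev_C_X]
    rw [h4, ← map_sub]
    exact hevA _ h1
  have r2 : ∑ j, φ (ξ₂ j) * γ j = Y * ω := by
    rw [← hsum, ← sub_eq_zero, hω]
    have h4 : Y * ev φ X' Y (derivative A) = ev φ X' Y (X * derivative A) := by
      rw [map_mul, ev_X]
    rw [h4, ← map_sub]
    exact hevA _ h2
  have hγ : γ ≠ 0 := by
    intro h3
    apply hAYP
    rw [← r0, h3]
    simp
  -- `γ` is a zero of all the forms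
  have hFo : ∀ o : Option ι,
      Fval (eV d e o) (fun I => algebraMap κ M (aV a f o I)) γ = 0 := by
    intro o
    have h3 := hevA _ (hF o)
    rw [← h3]
    unfold FB Fval mon
    rw [map_sum]
    refine Finset.sum_congr rfl fun I _ => ?_
    rw [map_mul, ev_C_C, map_prod]
    congr 1
    refine Finset.prod_congr rfl fun j _ => ?_
    rw [map_pow]
  have hFγ : Fval d (fun I => algebraMap κ M (a I)) γ = 0 := hFo none
  -- the structure of an algebra over `k`
  let _ : Algebra k M := ((algebraMap κ M).comp (algebraMap k κ)).toAlgebra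
  have hkM : ∀ u : k, algebraMap k M u = algebraMap κ M (algebraMap k κ u) := fun u => rfl
  have hfγ : ∀ i, MvPolynomial.aeval γ (f i) = 0 := by
    intro i
    rw [aeval_eq_Fval (hf i)]
    exact hFo (some i)
  -- independence
  have hindM : LinearIndependent M (Fin.cons γ (Fin.cons (fun k => D (γ k))
      fun i k => E (i₀.succAbove i) (γ k)) : Fin (m + 2) → Fin (n + 1) → M) := by
    have h3 := indep_of_spec (evalEvalRingHom y₁ y) (ev φ X' Y) hspec
      (N := Fin.cons Bv (Fin.cons (fun j => vf A (cX κ) (Bv j))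
        fun i j => vf A (cE (δ (i₀.succAbove i))) (Bv j))) (by
        convert hind using 1
        funext i
        refine Fin.cases rfl (fun i => ?_) i
        exact Fin.cases rfl (fun i => rfl) i)
    have hω0 : ω ≠ 0 := hAYP
    have h4 := h3.units_smul (Fin.cons 1 fun _ => (Units.mk0 ω hω0)⁻¹)
    convert h4 using 1
    funext i
    refine Fin.cases ?_ (fun i => ?_) i
    · funext j
      simp only [Fin.cons_zero, Pi.smul_apply', one_smul]
      rfl
    · refine Fin.cases ?_ (fun i => ?_) i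
      · funext j
        show D (γ j) = (ω⁻¹ : M) * ev φ X' Y (vf A (cX κ) (Bv j))
        rw [← hD, inv_mul_cancel_left₀ hω0]
      · funext j
        show E (i₀.succAbove i) (γ j) =
          (ω⁻¹ : M) * ev φ X' Y (vf A (cE (δ (i₀.succAbove i))) (Bv j))
        rw [← hE, inv_mul_cancel_left₀ hω0]
  -- the tangent space
  obtain ⟨l, hl⟩ : ∃ l, γ l ≠ 0 := by
    by_contra hcon
    push Not at hcon
    exact hγ (funext hcon)
  obtain ⟨T, hT, hγT, hDT⟩ := exists_tangent (k := k) (r := m + 2) hl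
    (fun p j hj => card_le_of_dim_proj hf hdim hfγ hl hj)
  -- the inequalities
  have hglob := wedge_globalV (d := d) (a := a) D hDκ' hDX (fun i => E (i₀.succAbove i))
    (fun i u => ⟨_, hEκ _ u⟩) (fun i => ⟨0, by rw [hEX, map_zero]⟩)
    (fun i I hI => by rw [hEκ, hδa _ I hI, map_zero]) W' (fun I u => ⟨_, hWκ' _ u⟩)
    (fun I => ⟨0, by rw [hWX', map_zero]⟩)
    (fun I hI J hJ => by
      rw [hWκ', hWa I hI J hJ]
      split_ifs
      · exact map_one _
      · exact map_zero _) hFγ hindM hT hγT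
    (hDT D fun u => by rw [hkM, hDκ'])
    (fun i => hDT _ fun u => by rw [hkM, hEκ, hδk, map_zero])
    (fun I _ => hDT _ fun u => by rw [hkM, hWκ', hWk, map_zero])
  have hgen' : pointField (RatFunc κ) γ = ⊤ := by
    rw [eq_top_iff, ← hgen, IntermediateField.adjoin_le_iff, Set.singleton_subset_iff]
    have hmem : ∀ ξ : Fin (n + 1) → κ, (∑ j, φ (ξ j) * γ j) / γ l ∈ pointField (RatFunc κ) γ := by
      intro ξ
      rw [Finset.sum_div]
      refine sum_mem fun j _ => ?_
      rw [mul_div_assoc]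
      refine mul_mem ?_ (IntermediateField.subset_adjoin _ _ ⟨j, l, rfl⟩)
      have h5 : φ (ξ j) = algebraMap (RatFunc κ) M (algebraMap κ[X] (RatFunc κ) (C (ξ j))) := by
        rw [← IsScalarTower.algebraMap_apply κ[X] (RatFunc κ) M, hφ,
          IsScalarTower.algebraMap_apply κ κ[X] M]
        rfl
      rw [h5]
      exact (pointField (RatFunc κ) γ).algebraMap_mem _
    have h6 : Y = ((∑ j, φ (ξ₂ j) * γ j) / γ l) / ((∑ j, φ (ξ₀ j) * γ j) / γ l) := by
      rw [r0, r2]
      field_simp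
    rw [h6]
    exact div_mem (hmem ξ₂) (hmem ξ₀)
  have hram := ram_le hγ hgen'
  have hpos : 0 < height κ γ := height_pos hγ (ξ₀ := ξ₀) (ξ₁ := ξ₁) (by rw [← hφ, r0]; exact hAYP)
    (by rw [← hφ, r0, r1])
  have hfin' : (Module.finrank (RatFunc κ) M : ℤ) ≤ b := by
    rw [hfin]
    exact_mod_cast hfdeg.trans hboxA.1
  have h7 : (d : ℤ) * height κ γ ≤ (m + 3 + 2 * (b - 1)) * height κ γ := by
    have h8 : 2 * ((Module.finrank (RatFunc κ) M : ℤ) - 1) * height κ γ ≤
        2 * ((b : ℤ) - 1) * height κ γ := by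
      apply mul_le_mul_of_nonneg_right _ hpos.le
      linarith
    linarith
  have h9 := le_of_mul_le_mul_right h7 hpos
  have h10 : ((m + 2 + 2 * b : ℕ) : ℤ) ≤ d := by exact_mod_cast hd
  push_cast at h10
  linarith

end Pool.Agent.Lib.MP_44a246_ntU
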