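import Mathlib
import Pool.Agent.Lib.MP_44a246_ntU.U12
import Pool.Agent.Lib.MP_44a246_ntS.SP10

/-!
Step E for a generic point of a generic hypersurface section over an algebraically closed field.
-/

namespace Pool.Agent.Lib.MP_44a246_ntU

open Pool.Agent.Lib.MP_e52354_nt
open Pool.Agent.Lib.MP_44a246_nt
open Pool.Agent.Lib.MP_44a246_ntL
open Pool.Agent.Lib.MP_44a246_ntS
open Pool.Agent.Lib.MP_44a246_ntG
open Module

universe u

/-- derivations over `k` with prescribed values on an algebraically independent family -/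
theorem exists_der_indepV {k κ : Type*} [Field k] [CharZero k] [Field κ] [Algebra k κ] {ι : Type*}
    {c : ι → κ} (hc : AlgebraicIndependent k c) (v : ι → κ) :
    ∃ D : Derivation ℤ κ κ, (∀ u : k, D (algebraMap k κ u) = 0) ∧ ∀ i, D (c i) = v i := by
  classical
  have hc' : AlgebraicIndepOn k id (Set.range c) := hc.coe_range
  obtain ⟨s, hs1, hs2⟩ := exists_isTranscendenceBasis_superset hc'
  have hsalg : Algebra.IsAlgebraic (Algebra.adjoin k (Set.range ((↑) : s → κ))) κ :=
    hs2.isAlgebraic
  obtain ⟨D, hD⟩ := exists_derivation hs2.1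
    (fun y : s => if h : ∃ i, c i = (y : κ) then v h.choose else 0)
  refine ⟨D.restrictScalars ℤ, fun u => D.map_algebraMap u, fun i => ?_⟩
  have h1 := hD ⟨c i, hs1 ⟨i, rfl⟩⟩
  have h2 : ∃ j, c j = c i := ⟨i, rfl⟩
  have h3 : D (c i) = v h2.choose := by
    simpa only [dif_pos h2] using h1
  rw [hc.injective h2.choose_spec] at h3
  exact h3

/-- the derivatives of a point are independent -/
theorem indep_pointV {κ : Type*} [Field κ] {m n : ℕ} {x : Fin n → κ} {l : Fin n} (hl : x l ≠ 0)
    {j : Fin (m + 1) → Fin n} (e : Fin (m + 1) → Derivation ℤ κ κ)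
    (he : ∀ i i', e i (x (j i') / x l) = if i = i' then 1 else 0) :
    LinearIndependent κ
      (Fin.cons x (fun i k => e i (x k)) : Fin (m + 2) → Fin n → κ) := by
  classical
  set z : Fin n → κ := fun k => x k / x l with hz
  have hxz : ∀ k, x k = x l * z k := by
    intro k
    show x k = x l * (x k / x l)
    field_simp
  have hex : ∀ i k, e i (x k) = x l * e i (z k) + z k * e i (x l) := by
    intro i k
    rw [hxz k, Derivation.leibniz, smul_eq_mul, smul_eq_mul]
  have hz0 : z l = 1 := div_self hl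
  have hez0 : ∀ i, e i (z l) = 0 := by
    intro i
    rw [hz0, Derivation.map_one_eq_zero]
  rw [Fintype.linearIndependent_iff]
  intro g hg
  rw [Fin.sum_univ_succ] at hg
  have hk : ∀ k, g 0 * x k + ∑ i : Fin (m + 1), g i.succ * e i (x k) = 0 := by
    intro k
    have := congrFun hg k
    simp only [Fin.cons_zero, Fin.cons_succ, Pi.add_apply, Pi.smul_apply, smul_eq_mul,
      Finset.sum_apply, Pi.zero_apply] at this
    exact this
  have hk' : ∀ k, (g 0 * x l + ∑ i : Fin (m + 1), g i.succ * e i (x l)) * z k +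
      x l * ∑ i : Fin (m + 1), g i.succ * e i (z k) = 0 := by
    intro k
    have h1 := hk k
    simp only [hex _ k] at h1
    rw [hxz k] at h1
    rw [add_mul, Finset.sum_mul, Finset.mul_sum, ← h1, add_assoc, ← Finset.sum_add_distrib]
    congr 1
    · ring
    · exact Finset.sum_congr rfl fun i _ => by ring
  have h0 : g 0 * x l + ∑ i : Fin (m + 1), g i.succ * e i (x l) = 0 := by
    have h5 := hk' l
    have h6 : ∑ i : Fin (m + 1), g i.succ * e i (z l) = 0 :=
      Finset.sum_eq_zero fun i _ => by rw [hez0, mul_zero]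
    rw [h6, mul_zero, add_zero, hz0, mul_one] at h5
    exact h5
  have h1 : ∀ i' : Fin (m + 1), g i'.succ = 0 := by
    intro i'
    have := hk' (j i')
    rw [h0, zero_mul, zero_add] at this
    have h2 := (mul_eq_zero.mp this).resolve_left hl
    have h3 : ∀ i, e i (z (j i')) = if i = i' then 1 else 0 := fun i => he i i'
    simp only [h3, mul_ite, mul_one, mul_zero, Finset.sum_ite_eq', Finset.mem_univ, if_true] at h2
    exact h2
  intro i
  refine Fin.cases ?_ h1 i
  simp only [h1, zero_mul, Finset.sum_const_zero, add_zero] at h0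
  exact (mul_eq_zero.mp h0).resolve_right hl

/-- **Step E** over an algebraically closed field -/
theorem no_certV_closed {κ : Type u} [Field κ] [IsAlgClosed κ] [CharZero κ] {k : Type*} [Field k]
    [CharZero k] [Algebra k κ] {n m d b : ℕ} (hd : m + 2 + 2 * b ≤ d) {ι : Type*} {e : ι → ℕ}
    {f : ι → MvPolynomial (Fin (n + 1)) k} (hf : ∀ i, (f i).IsHomogeneous (e i))
    (hdim : ringKrullDim (MvPolynomial (Fin (n + 1)) k ⧸ Ideal.span (Set.range f)) ≤
      ((m + 3 : ℕ) : ℕ))
    {a : (Fin (n + 1) →₀ ℕ) → κ} {x : Fin (n + 1) → κ} {l : Fin (n + 1)} (hl : x l ≠ 0)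
    {j : Fin (m + 1) → Fin (n + 1)}
    (hind : AlgebraicIndependent k (Sum.elim (fun I : {I // I ∈ expo (Fin (n + 1)) d} => a I.1)
      (fun i : Fin (m + 1) => x (j i) / x l))) :
    ¬ CertV (eV d e) (aV a f) b x := by
  classical
  choose δ hδ using fun i : Fin (m + 1) => exists_der_indepV hind
    (Sum.elim (fun _ => (0 : κ)) fun i' => if i = i' then 1 else 0)
  choose W hW using fun I : Fin (n + 1) →₀ ℕ => exists_der_indepV hind
    (Sum.elim (fun J => if I = J.1 then (1 : κ) else 0) fun _ => 0)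
  refine no_certV_der hd hf hdim δ (fun i => (hδ i).1) (fun i I hI => ?_) W (fun I => (hW I).1)
    (fun I _ J hJ => ?_) (indep_pointV (j := j) hl δ fun i i' => ?_)
  · exact (hδ i).2 (Sum.inl ⟨I, hI⟩)
  · exact (hW I).2 (Sum.inl ⟨J, hJ⟩)
  · exact (hδ i).2 (Sum.inr i')

end Pool.Agent.Lib.MP_44a246_ntU
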