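import Mathlib
import Pool.Agent.Lib.MP_44a246_ntG.G0
import Pool.Agent.Lib.MP_44a246_ntS.SQ2b

/-!
Certificates for points of varieties: images, scaling, ultraproducts.
-/

namespace Pool.Agent.Lib.MP_44a246_ntU

open Pool.Agent.Lib.MP_e52354_nt
open Pool.Agent.Lib.MP_44a246_ntS
open Pool.Agent.Lib.MP_44a246_ntG
open Polynomial

/-- certificates are mapped to certificates by homomorphisms of fields -/
theorem certV_map {L L' : Type*} [Field L] [Field L'] (φ : L →+* L') {n b : ℕ} {ι : Type*}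
    {e : ι → ℕ} {a : ι → (Fin (n + 1) →₀ ℕ) → L} {x : Fin (n + 1) → L} (h : CertV e a b x) :
    CertV e (fun i I => φ (a i I)) b (fun j => φ (x j)) := by
  obtain ⟨A, B, ξ₀, ξ₁, ξ₂, c, y₁, y, hA, hB, hc, h0, h1, h2, he, hd, hj, d1, d2, d3, d4⟩ := h
  refine ⟨m2 φ A, fun j => m2 φ (B j), fun j => φ (ξ₀ j), fun j => φ (ξ₁ j), fun j => φ (ξ₂ j),
    φ c, φ y₁, φ y, hA.m2 φ, fun j => (hB j).m2 φ, ?_, ?_, ?_, ?_, ?_, ?_, ?_, ?_, ?_, ?_, ?_⟩
  · exact (map_ne_zero φ).2 hc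
  · rw [← map_one φ, ← h0, map_sum]
    simp only [map_mul]
  · rw [← h1, map_sum]
    simp only [map_mul]
  · rw [← h2, map_sum]
    simp only [map_mul]
  · rw [m2_evalEval, he, map_zero]
  · rw [← m2_derivative, m2_evalEval]
    exact (map_ne_zero φ).2 hd
  · intro j
    rw [← m2_derivative, m2_evalEval, m2_evalEval, ← map_mul, ← map_mul, hj j]
  · intro i
    rw [← m2_FB]
    exact map_dvd (m2 φ) (d1 i)
  · have := map_dvd (m2 φ) d2
    rw [map_sub, map_sum, m2_derivative] at this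
    simpa only [map_mul, m2_CC] using this
  · have := map_dvd (m2 φ) d3
    rw [map_sub, map_sum, map_mul, m2_derivative] at this
    have hCX : m2 φ (C X) = C X := by simp [m2]
    rw [hCX] at this
    simpa only [map_mul, m2_CC] using this
  · have := map_dvd (m2 φ) d4
    rw [map_sub, map_sum, map_mul, m2_derivative] at this
    have hX : m2 φ X = X := by simp [m2]
    rw [hX] at this
    simpa only [map_mul, m2_CC] using this

/-- certificates do not depend on the scaling of the point -/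
theorem certV_smul {L : Type*} [Field L] {n b : ℕ} {ι : Type*} {e : ι → ℕ}
    {a : ι → (Fin (n + 1) →₀ ℕ) → L} {x : Fin (n + 1) → L} {r : L} (hr : r ≠ 0) :
    CertV e a b (fun j => r * x j) ↔ CertV e a b x := by
  constructor
  · rintro ⟨A, B, ξ₀, ξ₁, ξ₂, c', y₁, y, h1, h2, h3, h4⟩
    simp only [← mul_assoc c' r] at h4
    exact ⟨A, B, ξ₀, ξ₁, ξ₂, c' * r, y₁, y, h1, h2, mul_ne_zero h3 hr, h4⟩
  · rintro ⟨A, B, ξ₀, ξ₁, ξ₂, c, y₁, y, h1, h2, h3, h4⟩
    have hx : ∀ j, c * x j = (c * r⁻¹) * (r * x j) := by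
      intro j
      field_simp
    simp only [hx] at h4
    exact ⟨A, B, ξ₀, ξ₁, ξ₂, c * r⁻¹, y₁, y, h1, h2, mul_ne_zero h3 (inv_ne_zero hr), h4⟩

/-- larger degrees -/
theorem certV_mono {L : Type*} [Field L] {n b b' : ℕ} (hb : b ≤ b') {ι : Type*} {e : ι → ℕ}
    {a : ι → (Fin (n + 1) →₀ ℕ) → L} {x : Fin (n + 1) → L} (h : CertV e a b x) :
    CertV e a b' x := by
  obtain ⟨A, B, ξ₀, ξ₁, ξ₂, c', y₁, y, h1, h2, h3⟩ := h
  exact ⟨A, B, ξ₀, ξ₁, ξ₂, c', y₁, y, ⟨h1.1.trans hb, fun i => (h1.2 i).trans hb⟩,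
    fun j => ⟨(h2 j).1.trans hb, fun i => ((h2 j).2 i).trans hb⟩, h3⟩

/-- **Ultraproducts of certificates are certificates.** -/
theorem certV_germ {L : Type*} [Field L] {n b : ℕ} {ι : Type*} {e : ι → ℕ}
    {a : ι → (Fin (n + 1) →₀ ℕ) → L} {x : ℕ → Fin (n + 1) → L} (h : ∀ N, CertV e a b (x N)) :
    CertV e (fun i I => constHom (a i I)) b (fun j => germHom (fun N => x N j)) := by
  classical
  choose A B ξ₀ ξ₁ ξ₂ c y₁ y hA hB hc hξ₀ hξ₁ hξ₂ hAy hdA hval hF hl₀ hl₁ hl₂ using h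
  have hAne : ∀ N, A N ≠ 0 := by
    intro N h0
    apply hdA N
    rw [h0]
    simp
  have hbox1 : Box 1 (1 : L[X][X]) := by
    refine ⟨by simp, fun i => ?_⟩
    rw [coeff_one]
    split_ifs <;> simp
  have hboxCX : Box 1 (C X : L[X][X]) := by
    refine ⟨by simp, fun i => ?_⟩
    rw [coeff_C]
    split_ifs <;> simp
  have hboxX : Box 1 (X : L[X][X]) := by
    refine ⟨by simp, fun i => ?_⟩
    rw [coeff_X]
    split_ifs <;> simp
  have e0 : ∀ i N, ∃ Q, FB (e i) (a i) (B N) = A N * Q ∧ Box (e i * b) Q := fun i N =>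
    dvd_box (hAne N) (hF N i) (box_FB (e i) (a i) (hB N))
  have e1 : ∀ N, ∃ Q, ∑ j, C (C (ξ₀ N j)) * B N j - 1 * derivative (A N) = A N * Q ∧
      Box (b + 1) Q := fun N =>
    dvd_box (hAne N) (by rw [one_mul]; exact hl₀ N) (box_lin (hB N) (hA N) hbox1 (ξ₀ N))
  have e2 : ∀ N, ∃ Q, ∑ j, C (C (ξ₁ N j)) * B N j - C X * derivative (A N) = A N * Q ∧
      Box (b + 1) Q := fun N =>
    dvd_box (hAne N) (hl₁ N) (box_lin (hB N) (hA N) hboxCX (ξ₁ N))
  have e3 : ∀ N, ∃ Q, ∑ j, C (C (ξ₂ N j)) * B N j - X * derivative (A N) = A N * Q ∧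
      Box (b + 1) Q := fun N =>
    dvd_box (hAne N) (hl₂ N) (box_lin (hB N) (hA N) hboxX (ξ₂ N))
  choose Q0 hQ0 bQ0 using e0
  choose Q1 hQ1 bQ1 using e1
  choose Q2 hQ2 bQ2 using e2
  choose Q3 hQ3 bQ3 using e3
  obtain ⟨A', hA', hA'1, hA'2⟩ := exists_seqPoly A hA
  have eB : ∀ j, ∃ P' : (ℕ → L)[X][X], (∀ N, m2 (Pi.evalRingHom (fun _ => L) N) P' = B N j) ∧
      P'.natDegree ≤ b ∧ ∀ i, (P'.coeff i).natDegree ≤ b := fun j =>
    exists_seqPoly (fun N => B N j) (fun N => hB N j)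
  choose B' hB' hB'1 hB'2 using eB
  have eQ : ∀ i, ∃ P' : (ℕ → L)[X][X],
      (∀ N, m2 (Pi.evalRingHom (fun _ => L) N) P' = Q0 i N) ∧
      P'.natDegree ≤ e i * b ∧ ∀ k, (P'.coeff k).natDegree ≤ e i * b := fun i =>
    exists_seqPoly (Q0 i) (bQ0 i)
  choose Q0' hQ0' _ _ using eQ
  obtain ⟨Q1', hQ1', -, -⟩ := exists_seqPoly Q1 bQ1
  obtain ⟨Q2', hQ2', -, -⟩ := exists_seqPoly Q2 bQ2
  obtain ⟨Q3', hQ3', -, -⟩ := exists_seqPoly Q3 bQ3
  have hev : ∀ (P' : (ℕ → L)[X][X]) (P : ℕ → L[X][X]),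
      (∀ N, m2 (Pi.evalRingHom (fun _ => L) N) P' = P N) →
      P'.evalEval y₁ y = fun N => (P N).evalEval (y₁ N) (y N) := by
    intro P' P hP
    funext N
    have := m2_evalEval (Pi.evalRingHom (fun _ => L) N) P' y₁ y
    rw [hP] at this
    exact this.symm
  have hdA' : ∀ N, m2 (Pi.evalRingHom (fun _ => L) N) (derivative A') = derivative (A N) := by
    intro N
    rw [m2_derivative, hA']
  refine ⟨m2 germHom A', fun j => m2 germHom (B' j), fun j => germHom (fun N => ξ₀ N j),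
    fun j => germHom (fun N => ξ₁ N j), fun j => germHom (fun N => ξ₂ N j), germHom c,
    germHom y₁, germHom y, box_germ hA'1 hA'2, fun j => box_germ (hB'1 j) (hB'2 j),
    germ_ne_zero hc, ?_, seq_scal hξ₁, seq_scal hξ₂, ?_, ?_, ?_, ?_, ?_, ?_, ?_⟩
  · have := seq_scal (y := fun _ => (1 : L)) hξ₀
    rw [this]
    exact map_one germHom
  · rw [m2_evalEval, hev A' A hA']
    have : (fun N => (A N).evalEval (y₁ N) (y N)) = 0 := funext hAy
    rw [this, map_zero]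
  · rw [← m2_derivative, m2_evalEval, hev (derivative A') (fun N => derivative (A N)) hdA']
    exact germ_ne_zero hdA
  · intro j
    rw [← m2_derivative, m2_evalEval, m2_evalEval,
      hev (derivative A') (fun N => derivative (A N)) hdA', hev (B' j) (fun N => B N j) (hB' j),
      ← map_mul, ← map_mul]
    congr 1
    funext N
    exact hval N j
  · intro i
    refine ⟨m2 germHom (Q0' i), ?_⟩
    have h1 : ∑ I ∈ expo (Fin (n + 1)) (e i), C (C (fun _ : ℕ => a i I)) * ∏ j, B' j ^ I j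
        = A' * Q0' i := by
      apply seqPoly_ext
      intro N
      rw [map_mul, hA', hQ0', ← hQ0 i N, map_sum]
      unfold FB
      refine Finset.sum_congr rfl fun I _ => ?_
      rw [map_mul, m2_CC, map_prod]
      congr 1
      refine Finset.prod_congr rfl fun j _ => ?_
      rw [map_pow, hB']
    have h2 := congrArg (m2 germHom) h1
    rw [map_sum, map_mul] at h2
    rw [← h2]
    unfold FB
    refine Finset.sum_congr rfl fun I _ => ?_
    rw [map_mul, m2_CC, map_prod]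
    congr 1
    refine Finset.prod_congr rfl fun j _ => ?_
    rw [map_pow]
  · refine ⟨m2 germHom Q1', ?_⟩
    have := seq_lin (T := fun _ => 1) (T' := 1) hA' hQ1' (fun N => map_one _) hB' hQ1
    rwa [map_one, one_mul] at this
  · refine ⟨m2 germHom Q2', ?_⟩
    have := seq_lin (T := fun _ => C X) (T' := C X) hA' hQ2' (fun N => m2_CX _) hB' hQ2
    rwa [m2_CX] at this
  · refine ⟨m2 germHom Q3', ?_⟩
    have := seq_lin (T := fun _ => X) (T' := X) hA' hQ3' (fun N => m2_X _) hB' hQ3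
    rwa [m2_X] at this

end Pool.Agent.Lib.MP_44a246_ntU
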