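import Mathlib
import Pool.Agent.Lib.MP_e52354_nt.Ultra
import Pool.Agent.Lib.MP_e52354_nt.Span

/-!
Generic points in ultrapowers, over a countable field.
-/

namespace Pool.Agent.Lib.MP_44a246_ntU

open Pool.Agent.Lib.MP_e52354_nt

/-- A family of points over `L` which satisfies no polynomial relation over `K` has an ultraproduct
which is generic over a countable subfield. -/
theorem exists_generic_seqV {k K L : Type*} [Field k] [Countable k] [Field K] [Field L]
    [Algebra k K] [Algebra K L] [Algebra k L] [IsScalarTower k K L] {σ τ : Type*} [Finite σ]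
    [Finite τ] {a : σ → K} (ha : AlgebraicIndependent k a) {S : Set (τ → L)}
    (h : ∀ g : MvPolynomial τ K, g ≠ 0 → ∃ z ∈ S, MvPolynomial.aeval z g ≠ 0) :
    ∃ z : ℕ → τ → L, (∀ N, z N ∈ S) ∧
      ∀ H : MvPolynomial (σ ⊕ τ) k, H ≠ 0 →
        ∃ N₀, ∀ N ≥ N₀, MvPolynomial.aeval (Sum.elim (fun s => algebraMap K L (a s)) (z N)) H ≠ 0 := by
  -- the polynomial with the first variables specialised
  let G : MvPolynomial (σ ⊕ τ) k →ₐ[k] MvPolynomial τ K :=
    MvPolynomial.aeval (Sum.elim (fun s => MvPolynomial.C (a s)) MvPolynomial.X)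
  -- it is injective
  have hG : Function.Injective G := by
    let e := (MvPolynomial.renameEquiv k (Equiv.sumComm σ τ)).trans (MvPolynomial.sumAlgEquiv k τ σ)
    have hfac : ∀ H, G H = MvPolynomial.map
        ((MvPolynomial.aeval a : MvPolynomial σ k →ₐ[k] K) : MvPolynomial σ k →+* K) (e H) := by
      intro H
      have hhom : (G : MvPolynomial (σ ⊕ τ) k →+* MvPolynomial τ K) =
          (MvPolynomial.map ((MvPolynomial.aeval a : MvPolynomial σ k →ₐ[k] K) :
            MvPolynomial σ k →+* K)).comp (e : MvPolynomial (σ ⊕ τ) k →+* _) := by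
        apply MvPolynomial.ringHom_ext
        · intro r
          simp [G, e]
        · rintro (s | t)
          · simp [G, e]
          · simp [G, e]
      exact congrArg (fun φ : MvPolynomial (σ ⊕ τ) k →+* MvPolynomial τ K => φ H) hhom
    intro H₁ H₂ h12
    rw [hfac, hfac] at h12
    exact e.injective (MvPolynomial.map_injective _ ha h12)
  have hGne : ∀ H : MvPolynomial (σ ⊕ τ) k, H ≠ 0 → G H ≠ 0 := fun H hH h0 =>
    hH (hG (by rw [h0, map_zero]))
  -- evaluation
  have hev : ∀ (z : τ → L) (H : MvPolynomial (σ ⊕ τ) k), MvPolynomial.aeval z (G H) =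
      MvPolynomial.aeval (Sum.elim (fun s => algebraMap K L (a s)) z) H := by
    intro z H
    have hhom : ((MvPolynomial.aeval z : MvPolynomial τ K →ₐ[K] L) : MvPolynomial τ K →+* L).comp
        (G : MvPolynomial (σ ⊕ τ) k →+* MvPolynomial τ K) =
        ((MvPolynomial.aeval (Sum.elim (fun s => algebraMap K L (a s)) z) :
          MvPolynomial (σ ⊕ τ) k →ₐ[k] L) : MvPolynomial (σ ⊕ τ) k →+* L) := by
      apply MvPolynomial.ringHom_ext
      · intro r
        simp [G, ← IsScalarTower.algebraMap_apply k K L]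
      · rintro (s | t)
        · simp [G]
        · simp [G]
    exact congrArg (fun φ : MvPolynomial (σ ⊕ τ) k →+* L => φ H) hhom
  -- enumerate
  have hc3 : Countable (MvPolynomial (σ ⊕ τ) k) := by
    rw [← Cardinal.mk_le_aleph0_iff]
    refine MvPolynomial.cardinalMk_le_max_lift.trans (max_le (max_le ?_ ?_) le_rfl)
    · rw [Cardinal.lift_le_aleph0]
      exact Cardinal.mk_le_aleph0
    · rw [Cardinal.lift_le_aleph0]
      exact Cardinal.mk_le_aleph0
  have hne : Nonempty {H : MvPolynomial (σ ⊕ τ) k // H ≠ 0} := ⟨⟨1, one_ne_zero⟩⟩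
  obtain ⟨enum, henum⟩ := exists_surjective_nat {H : MvPolynomial (σ ⊕ τ) k // H ≠ 0}
  have hprod : ∀ N : ℕ, ∏ i ∈ Finset.range (N + 1), G (enum i).1 ≠ 0 := fun N =>
    Finset.prod_ne_zero_iff.mpr fun i _ => hGne _ (enum i).2
  choose z hzS hz using fun N => h _ (hprod N)
  refine ⟨z, hzS, fun H hH => ?_⟩
  obtain ⟨i, hi⟩ := henum ⟨H, hH⟩
  refine ⟨i, fun N hN => ?_⟩
  have h1 := hz N
  rw [map_prod, Finset.prod_ne_zero_iff] at h1
  have h2 := h1 i (Finset.mem_range.mpr (by omega))
  rw [hev, hi] at h2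
  exact h2

/-- algebraic independence in a field extension of the ultrapower -/
theorem algIndep_germV {k L Ω : Type*} [Field k] [Field L] [Algebra k L] [Field Ω] [Algebra k Ω]
    (ψ : UP L →+* Ω) (hψ : ∀ u : k, ψ (constHom (algebraMap k L u)) = algebraMap k Ω u) {ι : Type*}
    {z : ℕ → ι → L}
    (h : ∀ H : MvPolynomial ι k, H ≠ 0 → ∃ N₀, ∀ N ≥ N₀, MvPolynomial.aeval (z N) H ≠ 0) :
    AlgebraicIndependent k (fun i => ψ (germHom (fun N => z N i)) : ι → Ω) := by
  rw [algebraicIndependent_iff]
  intro H hH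
  by_contra hne
  obtain ⟨N₀, hN₀⟩ := h H hne
  have hhom : (MvPolynomial.aeval (R := k) (fun i => ψ (germHom (fun N => z N i)))).toRingHom =
      ψ.comp (germHom.comp (RingHom.pi (f := fun _ : ℕ => L) fun N =>
        (MvPolynomial.aeval (R := k) (z N)).toRingHom)) := by
    refine MvPolynomial.ringHom_ext (fun r => ?_) (fun i => ?_)
    · have h4 : (fun _ : ℕ => algebraMap k L r) =
          fun N => MvPolynomial.aeval (R := k) (z N) (MvPolynomial.C r) := by
        funext N
        rw [MvPolynomial.aeval_C]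
      change MvPolynomial.aeval (R := k) (fun i => ψ (germHom (fun N => z N i)))
          (MvPolynomial.C r) =
        ψ (germHom (fun N => MvPolynomial.aeval (R := k) (z N) (MvPolynomial.C r)))
      rw [MvPolynomial.aeval_C, ← h4, ← hψ r, constHom_apply]
    · have h3 : (fun N => z N i) = fun N => MvPolynomial.aeval (R := k) (z N) (MvPolynomial.X i) := by
        funext N
        rw [MvPolynomial.aeval_X]
      show MvPolynomial.aeval (R := k) (fun i => ψ (germHom (fun N => z N i))) (MvPolynomial.X i) =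
        ψ (germHom (fun N => MvPolynomial.aeval (R := k) (z N) (MvPolynomial.X i)))
      rw [MvPolynomial.aeval_X, h3]
  have h1 : MvPolynomial.aeval (R := k) (fun i => ψ (germHom (fun N => z N i))) H =
      ψ (germHom (fun N => MvPolynomial.aeval (z N) H)) := DFunLike.congr_fun hhom H
  rw [h1, map_eq_zero, germHom_eq_zero_iff] at hH
  have h2 : ∀ᶠ n in (Filter.hyperfilter ℕ : Filter ℕ), N₀ ≤ n :=
    (Filter.hyperfilter_le_cofinite (Nat.cofinite_eq_atTop ▸ Filter.eventually_ge_atTop N₀))
  obtain ⟨n, hn1, hn2⟩ := (hH.and h2).exists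
  exact hN₀ n hn2 hn1

/-- a field of finite transcendence degree is countable -/
theorem countable_of_trdeg {k : Type*} [Field k] [CharZero k]
    (h : Algebra.trdeg ℚ k < Cardinal.aleph0) : Countable k := by
  obtain ⟨s, hs⟩ := exists_isTranscendenceBasis ℚ k
  have hs1 : Cardinal.mk s < Cardinal.aleph0 := by
    rw [hs.cardinalMk_eq_trdeg]
    exact h
  have hs2 : Countable s := Cardinal.mk_le_aleph0_iff.1 hs1.le
  have halg : Algebra.IsAlgebraic (Algebra.adjoin ℚ (Set.range ((↑) : s → k))) k := hs.isAlgebraic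
  have hc : Countable (Algebra.adjoin ℚ (Set.range ((↑) : s → k))) := by
    have hc3 : Countable (MvPolynomial s ℚ) := by
      rw [← Cardinal.mk_le_aleph0_iff]
      refine MvPolynomial.cardinalMk_le_max_lift.trans (max_le (max_le ?_ ?_) le_rfl)
      · rw [Cardinal.lift_le_aleph0]
        exact Cardinal.mk_le_aleph0
      · rw [Cardinal.lift_le_aleph0]
        exact Cardinal.mk_le_aleph0
    rw [Algebra.adjoin_range_eq_range_aeval]
    exact (MvPolynomial.aeval ((↑) : s → k)).rangeRestrict_surjective.countable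
  rw [← Cardinal.mk_le_aleph0_iff] at hc ⊢
  have := Algebra.IsAlgebraic.cardinalMk_le_max (Algebra.adjoin ℚ (Set.range ((↑) : s → k))) k
  exact this.trans (max_le hc le_rfl)

end Pool.Agent.Lib.MP_44a246_ntU
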