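import Mathlib
import Pool.Agent.Lib.MP_44a246_ntG.G4
import Pool.Agent.Lib.MP_44a246_ntU.U05

/-!
The rank of the rows of the coordinates of a point of a variety.
-/

namespace Pool.Agent.Lib.MP_44a246_ntU

open Pool.Agent.Lib.MP_44a246_nt
open Pool.Agent.Lib.MP_44a246_ntL
open Pool.Agent.Lib.MP_44a246_ntS
open Pool.Agent.Lib.MP_44a246_ntG
open Pool.Agent.Lib.MP_e52354_nt
open Module

/-- **The rank of the rows**: it is at most the transcendence degree of the (normalised) point over
a field which is killed by the derivations. -/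
theorem finrank_Ux_le {κ L : Type*} [Field κ] [Field L] [Algebra κ L] {n d : ℕ}
    (X : DatG κ (L := L) n d) {k : Type*} [Field k] [CharZero k] [Algebra k L]
    (hk : ∀ I ∈ expo (Fin (n + 1)) d, ∀ c : k, X.D I (algebraMap k L c) = 0) {r : ℕ}
    (h : ∀ (p : ℕ) (j : Fin p → Fin (n + 1)), AlgebraicIndependent k (fun i => X.x (j i)) → p ≤ r) :
    finrank L X.Ux ≤ r := by
  classical
  obtain ⟨p, j, c, hp, hc⟩ := exists_der_comb h
  have hDK : ∀ (K : M3 d) (u : k), X.DK K (algebraMap k L u) = 0 := by
    intro K u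
    rw [X.DK_apply]
    exact Finset.sum_eq_zero fun I hI => by rw [hk I hI, mul_zero]
  have hrow : ∀ i, X.row (X.x i) = ∑ t, c i t • X.row (X.x (j t)) := by
    intro i
    funext K
    rw [Finset.sum_apply]
    exact hc (X.DK K) (hDK K) i
  have hle : X.Ux ≤ Submodule.span L (Set.range fun t => X.row (X.x (j t))) := by
    unfold DatG.Ux
    rw [Submodule.span_le]
    rintro _ ⟨i, rfl⟩
    simp only [SetLike.mem_coe]
    rw [hrow i]
    exact Submodule.sum_mem _ fun t _ => Submodule.smul_mem _ _ (Submodule.subset_span ⟨t, rfl⟩)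
  refine (Submodule.finrank_mono hle).trans ((finrank_range_le_card _).trans ?_)
  rw [Fintype.card_fin]
  exact hp

end Pool.Agent.Lib.MP_44a246_ntU
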