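import Mathlib
import Pool.Agent.Lib.MP_44a246_ntS.SR2b

/-!
The derivations of the base field which kill the field of definition of a variety.
-/

namespace Pool.Agent.Lib.MP_44a246_ntU

open Pool.Agent.Lib.MP_44a246_nt
open Pool.Agent.Lib.MP_44a246_ntL
open Pool.Agent.Lib.MP_44a246_ntV
open Pool.Agent.Lib.MP_44a246_ntS
open Pool.Agent.Lib.MP_e52354_nt
open WithZero

universe u v

/-- **Existence of the data over the base field**, with derivations `D I` which kill a subfield `k`
of finite transcendence degree. -/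
theorem exists_baseV {κ : Type u} {K : Type v} [Field κ] [IsAlgClosed κ] [CharZero κ] [Field K]
    [CharZero K] [Algebra κ K] (hK : IsFF κ K) (htr : Cardinal.aleph0 ≤ Algebra.trdeg ℚ κ)
    {k : Type*} [Field k] [CharZero k] [Algebra k K]
    (hk : Algebra.trdeg ℚ k < Cardinal.aleph0) {n d : ℕ} {a : (Fin (n + 1) →₀ ℕ) → K}
    (ha : AlgebraicIndependent k (fun I : ↥(expo (Fin (n + 1)) d) => a I.1)) :
    ∃ X : BaseD κ K n d, X.a = a ∧
      ∀ I ∈ expo (Fin (n + 1)) d, ∀ c : k, X.D I (algebraMap k K c) = 0 := by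
  classical
  obtain ⟨t, ht, hfin⟩ := hK
  have hsct : IsScalarTower ℚ κ K := inferInstance
  have hsct' : IsScalarTower ℚ k K := inferInstance
  -- a finite transcendence basis of `k`
  obtain ⟨ι, c, hc⟩ := exists_isTranscendenceBasis' ℚ k
  have hι : Finite ι := by
    rw [← Cardinal.lt_aleph0_iff_finite]
    have h1 := hc.lift_cardinalMk_eq_trdeg
    rw [Cardinal.lift_id, Cardinal.lift_id] at h1
    rw [h1]
    exact hk
  have : Fintype ι := Fintype.ofFinite ι
  have hind : AlgebraicIndependent ℚ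
      (Sum.elim (fun I : ↥(expo (Fin (n + 1)) d) => a I.1) (algebraMap k K ∘ c)) :=
    hc.1.sumElim_comp ha
  obtain ⟨T, iT, z1, E1, DK, B₁, A, hB₁, hA, hPD, hPE1, hPa, hPz, hD, hDz, hEa, hEz1, hcomm,
    hcommE, hgen⟩ := exists_setupV (k₀ := ℚ) ht hfin hind
  obtain ⟨β, iβ, z, F, B₂, hB₂, hzc, hzalg, hF, hPF, -⟩ :=
    exists_basis_bound (k₀ := ℚ) ht hfin (∅ : Finset K)
  have hzinj : Function.Injective z := by
    intro b b' hbb
    have h1 := hF b b
    rw [hbb, hF, if_pos rfl] at h1
    by_contra hne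
    rw [if_neg hne] at h1
    exact zero_ne_one h1
  let β' : Type u := {b : β // ∃ u : κ, z b = algebraMap κ K u}
  choose zz hzz using fun b : β' => b.2
  let B : Place κ K → ℕ := fun v => B₁ v + B₂ v
  have hB : (Function.support B).Finite := by
    refine (hB₁.union hB₂).subset fun v hv => ?_
    by_contra hcon
    rw [Set.mem_union, not_or, Function.mem_support, Function.mem_support, not_not, not_not] at hcon
    apply hv
    show B₁ v + B₂ v = 0
    rw [hcon.1, hcon.2, add_zero]
  have hup1 : ∀ {D : Derivation ℤ K K}, PoleBound κ D B₁ → PoleBound κ D B := by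
    intro D h v y hy
    refine (h v y hy).trans (exp_le_exp.mpr ?_)
    show (B₁ v : ℤ) ≤ ((B₁ v + B₂ v : ℕ) : ℤ)
    push_cast
    have : (0 : ℤ) ≤ B₂ v := Int.natCast_nonneg _
    linarith
  have hup2 : ∀ {D : Derivation ℤ K K}, PoleBound κ D B₂ → PoleBound κ D B := by
    intro D h v y hy
    refine (h v y hy).trans (exp_le_exp.mpr ?_)
    show (B₂ v : ℤ) ≤ ((B₁ v + B₂ v : ℕ) : ℤ)
    push_cast
    have : (0 : ℤ) ≤ B₁ v := Int.natCast_nonneg _
    linarith
  have hfiny : ∀ y : K, {b : β | F b y ≠ 0}.Finite := by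
    intro y
    obtain ⟨S, hS, hy⟩ := exists_finset_isAlgebraic (hzalg.isAlgebraic y)
    refine (S.finite_toSet.preimage hzinj.injOn).subset fun b hb => ?_
    rw [Set.mem_preimage]
    by_contra hn
    apply hb
    refine der_eq_zero (V := K) (F b) (S : Set K) ?_ hy
    intro s hs
    obtain ⟨b', rfl⟩ := hS hs
    rw [hF, if_neg]
    rintro rfl
    exact hn hs
  have hinf : Infinite β := infinite_basis htr hzalg
  have hinf' : Infinite β' := by
    have hsub : {b : β | ¬ ∃ u : κ, z b = algebraMap κ K u}.Finite := by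
      refine Set.Subsingleton.finite ?_
      intro b hb b' hb'
      have h1 : z b = t := (hzc b).resolve_right hb
      have h2 : z b' = t := (hzc b').resolve_right hb'
      exact hzinj (h1.trans h2.symm)
    have h3 : {b : β | ∃ u : κ, z b = algebraMap κ K u}.Infinite := by
      have := hsub.infinite_compl
      convert this using 1
      ext b
      simp
    exact h3.to_subtype
  -- the derivations `DK (inl I)` kill `k`
  have hDk : ∀ (I : ↥(expo (Fin (n + 1)) d)) (u : k), DK (Sum.inl I) (algebraMap k K u) = 0 := by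
    intro I u
    have hu : IsAlgebraic (IntermediateField.adjoin ℚ (Set.range c)) u :=
      hc.isAlgebraic_field.isAlgebraic u
    have h1 := der_eq_zero (V := K) ((DK (Sum.inl I)).compAlgebraMap k) (Set.range c) ?_ hu
    · exact h1
    · rintro _ ⟨i, rfl⟩
      have h2 := hD (Sum.inl I) (Sum.inr i)
      rw [if_neg (by simp)] at h2
      exact h2
  refine ⟨{
    a := a
    D := fun I => if h : I ∈ expo (Fin (n + 1)) d then derZ (DK (Sum.inl ⟨I, h⟩)) else 0
    B := B
    A := A
    β := β'
    z := zz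
    E := fun b => derZ (F b.1)
    hDa := ?_
    hB := hB
    hA := hA
    hD := ?_
    ha := ?_
    hE := ?_
    hEz := ?_
    hfin := ?_
    hinf := hinf' }, rfl, ?_⟩
  · intro I hI J hJ
    rw [dif_pos hI]
    show DK (Sum.inl ⟨I, hI⟩) (a J) = _
    have h1 := hD (Sum.inl ⟨I, hI⟩) (Sum.inl ⟨J, hJ⟩)
    refine h1.trans (if_congr ?_ rfl rfl)
    rw [Sum.inl.injEq, Subtype.mk.injEq]
  · intro I hI
    rw [dif_pos hI]
    exact hup1 (hPD _)
  · intro I hI v
    exact hPa (Sum.inl ⟨I, hI⟩) v
  · intro b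
    exact hup2 (hPF _)
  · intro b b'
    have h1 : derZ (F b.1) (algebraMap κ K (zz b')) = if b.1 = b'.1 then 1 else 0 := by
      rw [← hzz b']
      exact hF _ _
    constructor
    · rintro rfl
      rw [h1, if_pos rfl]
    · intro hne
      rw [h1, if_neg]
      intro h
      exact hne (Subtype.ext h)
  · intro y
    exact (hfiny y).preimage Subtype.val_injective.injOn
  · intro I hI u
    show (if h : I ∈ expo (Fin (n + 1)) d then derZ (DK (Sum.inl ⟨I, h⟩)) else 0)
      (algebraMap k K u) = 0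
    rw [dif_pos hI]
    exact hDk ⟨I, hI⟩ u

end Pool.Agent.Lib.MP_44a246_ntU
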