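import Mathlib
import Pool.Agent.Lib.MP_44a246_ntU.U01
import Pool.Agent.Lib.MP_44a246_ntU.U02

/-!
The Krull dimension is at most the largest number of algebraically independent coordinates at a
zero of the ideal.
-/

namespace Pool.Agent.Lib.MP_44a246_ntU

open MvPolynomial

universe v

/-- a finitely generated domain of large dimension has many algebraically independent elements
among its generators -/
theorem exists_indep_of_dim {K A : Type v} [Field K] [CommRing A] [IsDomain A] [Algebra K A]
    {n : ℕ} {x : Fin n → A} (hx : Algebra.adjoin K (Set.range x) = ⊤) {t : ℕ}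
    (ht : (t : WithBot ℕ∞) ≤ ringKrullDim A) :
    ∃ j : Fin t → Fin n, AlgebraicIndependent K (fun i => x (j i)) := by
  classical
  have hft : Algebra.FiniteType K A :=
    ⟨⟨(Set.finite_range x).toFinset, by simpa using hx⟩⟩
  obtain ⟨q, g, hg, hint⟩ := exists_integral_inj_algHom_of_fg K A
  have hB := noether_basis g hg hint
  have htq : t ≤ q := by
    let := g.toRingHom.toAlgebra
    have : Algebra.IsIntegral (MvPolynomial (Fin q) K) A := ⟨fun x => hint x⟩
    have h2 : ringKrullDim A ≤ ringKrullDim (MvPolynomial (Fin q) K) :=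
      ringKrullDim_integral_le (R := MvPolynomial (Fin q) K) (A := A)
    rw [dim_mvPolynomial] at h2
    exact_mod_cast ht.trans h2
  have halg : Algebra.IsAlgebraic (Algebra.adjoin K (Set.range x)) A := by
    rw [hx]
    have := Algebra.isIntegral_of_surjective (R := (⊤ : Subalgebra K A)) (B := A)
      (fun a => ⟨⟨a, Algebra.mem_top⟩, rfl⟩)
    infer_instance
  obtain ⟨u, hu, hub⟩ := exists_isTranscendenceBasis_subset (R := K) (Set.range x)
  have hcard : Cardinal.mk u = (q : Cardinal.{v}) := by
    have e1 := hB.lift_cardinalMk_eq_trdeg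
    have e2 := hub.cardinalMk_eq_trdeg
    rw [e2]
    simpa using e1.symm
  have hemb : Nonempty (Fin t ↪ u) := by
    have h3 : Cardinal.lift.{v} (Cardinal.mk (Fin t)) ≤ Cardinal.lift.{0} (Cardinal.mk u) := by
      rw [hcard]
      simpa using htq
    exact Cardinal.lift_mk_le'.1 h3
  obtain ⟨e⟩ := hemb
  have hpre : ∀ i : Fin t, ∃ l : Fin n, x l = (e i : A) := fun i => hu (e i).2
  choose j hj using hpre
  refine ⟨j, ?_⟩
  have h4 := hub.1.comp e e.injective
  convert h4 using 1
  funext i
  exact hj i

/-- a domain embeds into a field -/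
theorem exists_field_embedding (K A : Type v) [Field K] [CommRing A] [IsDomain A] [Algebra K A] :
    ∃ (M : Type v) (_ : Field M) (_ : Algebra K M) (φ : A →ₐ[K] M), Function.Injective φ :=
  ⟨FractionRing A, inferInstance, inferInstance, IsScalarTower.toAlgHom K A (FractionRing A),
    IsFractionRing.injective A (FractionRing A)⟩

/-- the length of a chain of primes is at most the dimension of the quotient by the first one -/
theorem length_le_quotient {R : Type v} [CommRing R] (l : LTSeries (PrimeSpectrum R)) :
    ((l.length : ℕ) : WithBot ℕ∞) ≤ ringKrullDim (R ⧸ l.head.asIdeal) := by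
  let P₀ : Ideal R := l.head.asIdeal
  let f : R →+* R ⧸ P₀ := Ideal.Quotient.mk P₀
  have hf : Function.Surjective f := Ideal.Quotient.mk_surjective
  have hle : ∀ i, P₀ ≤ (l i).asIdeal := fun i => l.head_le i
  have hprime : ∀ i, ((l i).asIdeal.map f).IsPrime := fun i => by
    have := (l i).2
    exact Ideal.map_isPrime_of_surjective hf (by rw [Ideal.mk_ker]; exact hle i)
  have hcomap : ∀ i, ((l i).asIdeal.map f).comap f = (l i).asIdeal := fun i => by
    rw [Ideal.comap_map_of_surjective f hf, ← RingHom.ker_eq_comap_bot, Ideal.mk_ker]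
    exact sup_eq_left.2 (hle i)
  let L : LTSeries (PrimeSpectrum (R ⧸ P₀)) :=
    { length := l.length
      toFun := fun i => ⟨(l i).asIdeal.map f, hprime i⟩
      step := fun i => by
        have hlt : l i.castSucc < l i.succ := l.step i
        have hlt' : (l i.castSucc).asIdeal < (l i.succ).asIdeal := hlt
        change (l i.castSucc).asIdeal.map f < (l i.succ).asIdeal.map f
        refine lt_of_le_of_ne (Ideal.map_mono hlt'.le) fun he => hlt'.ne ?_
        rw [← hcomap i.castSucc, he, hcomap] }
  unfold ringKrullDim Order.krullDim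
  exact le_iSup (fun p : LTSeries (PrimeSpectrum (R ⧸ P₀)) => ((p.length : ℕ∞) : WithBot ℕ∞)) L

/-- a surjection preserves generation -/
theorem adjoin_quotient {K R : Type v} [Field K] [CommRing R] [Algebra K R] {n : ℕ}
    {x : Fin n → R} (hx : Algebra.adjoin K (Set.range x) = ⊤) (P : Ideal R) :
    Algebra.adjoin K (Set.range fun i => Ideal.Quotient.mkₐ K P (x i)) = ⊤ := by
  have h1 := congrArg (Subalgebra.map (Ideal.Quotient.mkₐ K P)) hx
  rw [AlgHom.map_adjoin, ← Set.range_comp, Algebra.map_top] at h1
  rw [(AlgHom.range_eq_top (Ideal.Quotient.mkₐ K P)).2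
    (Ideal.Quotient.mkₐ_surjective K P)] at h1
  exact h1

/-- a chain of primes of length `t` gives a point with `t` algebraically independent
coordinates -/
theorem exists_point_of_chain {K R : Type v} [Field K] [CommRing R] [Algebra K R] {n : ℕ}
    {x : Fin n → R} (hx : Algebra.adjoin K (Set.range x) = ⊤) (l : LTSeries (PrimeSpectrum R)) :
    ∃ (M : Type v) (_ : Field M) (_ : Algebra K M) (φ : R →ₐ[K] M) (j : Fin l.length → Fin n),
      AlgebraicIndependent K (fun i => φ (x (j i))) := by
  have hP₀ : (l.head.asIdeal).IsPrime := l.head.2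
  obtain ⟨j, hj⟩ := exists_indep_of_dim (adjoin_quotient hx l.head.asIdeal)
    (length_le_quotient l)
  obtain ⟨M, hM, hKM, ι, hι⟩ := exists_field_embedding K (R ⧸ l.head.asIdeal)
  exact ⟨M, hM, hKM, ι.comp (Ideal.Quotient.mkₐ K l.head.asIdeal), j, hj.map' hι⟩

/-- **The Krull dimension is at most the largest number of algebraically independent
coordinates.** -/
theorem dim_le_of_card {K : Type v} [Field K] {n s : ℕ} {I : Ideal (MvPolynomial (Fin n) K)}
    (h : ∀ (M : Type v) [Field M] [Algebra K M] (γ : Fin n → M), (∀ f ∈ I, aeval γ f = 0) →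
      ∀ (p : ℕ) (j : Fin p → Fin n), AlgebraicIndependent K (fun i => γ (j i)) → p ≤ s) :
    ringKrullDim (MvPolynomial (Fin n) K ⧸ I) ≤ (s : ℕ) := by
  unfold ringKrullDim Order.krullDim
  refine iSup_le fun l => ?_
  have hgen := adjoin_quotient (MvPolynomial.adjoin_range_X (R := K) (σ := Fin n)) I
  obtain ⟨M, hM, hKM, φ, j, hj⟩ := exists_point_of_chain hgen l
  have h5 := h M (fun i => φ (Ideal.Quotient.mkₐ K I (X i))) (fun q hq => by
    have h6 : aeval (fun i => φ (Ideal.Quotient.mkₐ K I (X i))) =
        φ.comp (Ideal.Quotient.mkₐ K I) := by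
      ext i
      simp
    rw [h6, AlgHom.comp_apply]
    have h7 : Ideal.Quotient.mkₐ K I q = 0 := Ideal.Quotient.eq_zero_iff_mem.2 hq
    rw [h7, map_zero]) l.length j hj
  exact_mod_cast h5

end Pool.Agent.Lib.MP_44a246_ntU
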