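import Mathlib
import Pool.Agent.Lib.MP_44a246_ntU.U03

/-!
Homogenisation, and the dimension of the zero set.
-/

namespace Pool.Agent.Lib.MP_44a246_ntU

open MvPolynomial

universe v w

private noncomputable def u17G {K : Type*} [Field K] {n p : ℕ} (g : MvPolynomial (Fin p) K)
    (l : Fin n) (j : Fin p → Fin n) : MvPolynomial (Fin n) K :=
  ∑ u ∈ g.support, monomial (Finsupp.mapDomain j u + Finsupp.single l (g.totalDegree + 1 - u.degree))
    (g.coeff u)

private theorem u17_hom {K : Type*} [Field K] {n p : ℕ} (g : MvPolynomial (Fin p) K)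
    (l : Fin n) (j : Fin p → Fin n) : (u17G g l j).IsHomogeneous (g.totalDegree + 1) := by
  refine IsHomogeneous.sum _ _ _ fun u hu => ?_
  refine isHomogeneous_monomial _ ?_
  have h1 : u.degree ≤ g.totalDegree := le_totalDegree hu
  have h2 : (Finsupp.mapDomain j u).degree = u.degree := by
    rw [Finsupp.degree_mapDomain]
  simp only [map_add, h2, Finsupp.degree_single]
  omega

private theorem u17_aeval {K L : Type*} [Field K] [Field L] [Algebra K L] {n p : ℕ}
    (g : MvPolynomial (Fin p) K) (l : Fin n) (j : Fin p → Fin n) (x : Fin n → L) :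
    aeval x (u17G g l j) = ∑ u ∈ g.support, algebraMap K L (g.coeff u) *
      ((∏ i, x (j i) ^ u i) * x l ^ (g.totalDegree + 1 - u.degree)) := by
  unfold u17G
  rw [map_sum]
  refine Finset.sum_congr rfl fun u _ => ?_
  rw [aeval_monomial]
  congr 1
  rw [Finsupp.prod_add_index' (fun _ => pow_zero _) (fun _ _ _ => pow_add _ _ _),
    Finsupp.prod_mapDomain_index (fun _ => pow_zero _) (fun _ _ _ => pow_add _ _ _),
    Finsupp.prod_single_index (h := fun i k => x i ^ k) (pow_zero _),
    Finsupp.prod_fintype _ _ (fun _ => pow_zero _)]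

private theorem u17_zero {K L : Type*} [Field K] [Field L] [Algebra K L] {n p : ℕ}
    (g : MvPolynomial (Fin p) K) (l : Fin n) (j : Fin p → Fin n) (x : Fin n → L) (hx : x l = 0) :
    aeval x (u17G g l j) = 0 := by
  rw [u17_aeval]
  refine Finset.sum_eq_zero fun u hu => ?_
  have h1 : u.degree ≤ g.totalDegree := le_totalDegree hu
  rw [hx, zero_pow (by omega), mul_zero, mul_zero]

private theorem u17_val {K L : Type*} [Field K] [Field L] [Algebra K L] {n p : ℕ}
    (g : MvPolynomial (Fin p) K) (l : Fin n) (j : Fin p → Fin n) (x : Fin n → L) (hx : x l ≠ 0) :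
    aeval x (u17G g l j) = x l ^ (g.totalDegree + 1) * aeval (fun i => x (j i) / x l) g := by
  rw [u17_aeval, aeval_def, eval₂_eq', Finset.mul_sum]
  refine Finset.sum_congr rfl fun u hu => ?_
  have h1 : u.degree ≤ g.totalDegree := le_totalDegree hu
  have h2 : ∏ i, (x (j i) / x l) ^ u i = (∏ i, x (j i) ^ u i) / x l ^ u.degree := by
    rw [Finsupp.degree_eq_sum, ← Finset.prod_pow_eq_pow_sum, ← Finset.prod_div_distrib]
    exact Finset.prod_congr rfl fun i _ => div_pow _ _ _
  rw [h2]
  have h3 : x l ^ (g.totalDegree + 1) =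
      x l ^ (g.totalDegree + 1 - u.degree) * x l ^ u.degree := by
    rw [← pow_add]
    congr 1
    omega
  rw [h3]
  have h4 : x l ^ u.degree ≠ 0 := pow_ne_zero _ hx
  field_simp

/-- a polynomial in some of the affine coordinates as a form -/
theorem exists_homogV {K : Type v} [Field K] {n p : ℕ} (g : MvPolynomial (Fin p) K) (l : Fin n)
    (j : Fin p → Fin n) :
    ∃ (E : ℕ) (G : MvPolynomial (Fin n) K), G.IsHomogeneous E ∧
      ∀ {L : Type w} [Field L] [Algebra K L] (x : Fin n → L),
        (x l = 0 → aeval x G = 0) ∧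
          (x l ≠ 0 → aeval x G = x l ^ E * aeval (fun i => x (j i) / x l) g) := by
  exact ⟨g.totalDegree + 1, u17G g l j, u17_hom g l j, fun x =>
    ⟨fun hx => u17_zero g l j x hx, fun hx => u17_val g l j x hx⟩⟩

/-- the quotients of an algebraically independent family -/
theorem indep_ratio {K M : Type*} [Field K] [Field M] [Algebra K M] {p : ℕ} {y : Fin (p + 1) → M}
    (hy : AlgebraicIndependent K y) :
    AlgebraicIndependent K (fun i : Fin p => y i.succ / y 0) := by
  rw [algebraicIndependent_iff]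
  intro H hH
  have hy0 : y 0 ≠ 0 := hy.ne_zero 0
  have h1 := u17_val H 0 Fin.succ y hy0
  rw [hH, mul_zero] at h1
  have h2 : u17G H 0 Fin.succ = 0 := (algebraicIndependent_iff.1 hy) _ h1
  let L := FractionRing (MvPolynomial (Fin p) K)
  let x : Fin (p + 1) → L := Fin.cons 1 (fun i => algebraMap (MvPolynomial (Fin p) K) L (X i))
  have hx0 : x 0 = 1 := rfl
  have hx1 : ∀ i : Fin p, x i.succ = algebraMap (MvPolynomial (Fin p) K) L (X i) := fun i => rfl
  have h3 := u17_val H 0 Fin.succ x (by rw [hx0]; exact one_ne_zero)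
  rw [h2, map_zero, hx0, one_pow, one_mul] at h3
  have h4 : (fun i : Fin p => x i.succ / 1) =
      fun i => algebraMap (MvPolynomial (Fin p) K) L (X i) := by
    funext i
    rw [div_one, hx1]
  rw [h4] at h3
  have h5 : aeval (fun i : Fin p => algebraMap (MvPolynomial (Fin p) K) L (X i)) H =
      algebraMap (MvPolynomial (Fin p) K) L H := by
    have h6 : (aeval (fun i : Fin p => algebraMap (MvPolynomial (Fin p) K) L (X i)) :
        MvPolynomial (Fin p) K →ₐ[K] L) = IsScalarTower.toAlgHom K (MvPolynomial (Fin p) K) L := by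
      ext i
      simp
    rw [h6]
    rfl
  rw [h5] at h3
  exact IsFractionRing.injective (MvPolynomial (Fin p) K) L (by rw [← h3, map_zero])

/-- **The dimension of the exceptional set.** -/
theorem dim_excV {K : Type v} [Field K] {n m : ℕ}
    {g : Fin (n + 1) → (Fin (m + 1) → Fin (n + 1)) → MvPolynomial (Fin (m + 1)) K}
    (hg : ∀ l j, g l j ≠ 0) {E : Fin (n + 1) → (Fin (m + 1) → Fin (n + 1)) → ℕ}
    {G : Fin (n + 1) → (Fin (m + 1) → Fin (n + 1)) → MvPolynomial (Fin (n + 1)) K}
    (hG : ∀ l j, ∀ {L : Type v} [Field L] [Algebra K L] (x : Fin (n + 1) → L), x l ≠ 0 →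
      aeval x (G l j) = x l ^ E l j * aeval (fun i => x (j i) / x l) (g l j))
    {I : Ideal (MvPolynomial (Fin (n + 1)) K)} (hI : ∀ l j, G l j ∈ I) :
    ringKrullDim (MvPolynomial (Fin (n + 1)) K ⧸ I) ≤ ((m + 1 : ℕ) : ℕ) := by
  refine dim_le_of_card (s := m + 1) ?_
  intro M _ _ γ hγ p j hj
  by_contra hp
  have hp' : m + 2 ≤ p := by omega
  have h1 : AlgebraicIndependent K (fun i : Fin (m + 2) => γ (j (Fin.castLE hp' i))) :=
    hj.comp _ (Fin.castLE_injective hp')
  have h2 := indep_ratio h1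
  have h3 : γ (j (Fin.castLE hp' 0)) ≠ 0 := h1.ne_zero 0
  have h4 := hG (j (Fin.castLE hp' 0)) (fun i => j (Fin.castLE hp' i.succ)) γ h3
  rw [hγ _ (hI _ _)] at h4
  have h5 := (mul_eq_zero.1 h4.symm).resolve_left (pow_ne_zero _ h3)
  exact hg _ _ ((algebraicIndependent_iff.1 h2) _ h5)

end Pool.Agent.Lib.MP_44a246_ntU
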