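import Mathlib
import Pool.Agent.Lib.MP_44a246_ntU.U13
import Pool.Agent.Lib.MP_44a246_ntU.U14
import Pool.Agent.Lib.MP_44a246_ntU.U15

/-!
Compactness: the coordinates of the points on plane curves of small degree satisfy an equation.
-/

namespace Pool.Agent.Lib.MP_44a246_ntU

open Pool.Agent.Lib.MP_e52354_nt
open Pool.Agent.Lib.MP_44a246_nt
open Pool.Agent.Lib.MP_44a246_ntL
open Pool.Agent.Lib.MP_44a246_ntS
open Pool.Agent.Lib.MP_44a246_ntG

/-- The contradiction in an algebraically closed extension of the ultrapower. -/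
private theorem excV_aux {k L : Type*} [Field k] [CharZero k] [Field L] [CharZero L]
    [Algebra k L] {Ω : Type*} [Field Ω] [IsAlgClosed Ω] [CharZero Ω] [Algebra k Ω]
    (ψ : UP L →+* Ω) (hψ : ∀ u : k, ψ (constHom (algebraMap k L u)) = algebraMap k Ω u)
    {n m d b : ℕ} (hd : m + 2 + 2 * b ≤ d) {ι : Type*} {e : ι → ℕ}
    {f : ι → MvPolynomial (Fin (n + 1)) k} (hf : ∀ i, (f i).IsHomogeneous (e i))
    (hdim : ringKrullDim (MvPolynomial (Fin (n + 1)) k ⧸ Ideal.span (Set.range f)) ≤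
      ((m + 3 : ℕ) : ℕ))
    {a : (Fin (n + 1) →₀ ℕ) → L} {l : Fin (n + 1)} {j : Fin (m + 1) → Fin (n + 1)}
    {z : ℕ → Fin (m + 1) → L} {x : ℕ → Fin (n + 1) → L}
    (hz : ∀ H : MvPolynomial ({I // I ∈ expo (Fin (n + 1)) d} ⊕ Fin (m + 1)) k, H ≠ 0 →
      ∃ N₀, ∀ N ≥ N₀, MvPolynomial.aeval
        (Sum.elim (fun I : {I // I ∈ expo (Fin (n + 1)) d} => a I.1) (z N)) H ≠ 0)
    (hx1 : ∀ N, CertV (eV d e) (aV a f) b (x N)) (hx2 : ∀ N, x N l = 1)
    (hx3 : ∀ N i, z N i = x N (j i)) : False := by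
  have hcg := certV_map ψ (certV_germ hx1)
  have hx0 : germHom (fun N => x N l) = 1 := by
    have : (fun N => x N l) = 1 := funext fun N => hx2 N
    rw [this, map_one]
  have hA : (fun (i : Option ι) (I : Fin (n + 1) →₀ ℕ) => ψ (constHom (aV a f i I))) =
      aV (fun I => ψ (constHom (a I))) f := by
    funext i I
    cases i with
    | none => rfl
    | some i => exact hψ _
  rw [hA] at hcg
  refine no_certV_closed hd hf hdim (l := l) (j := j) ?_ ?_ hcg
  · show ψ (germHom (fun N => x N l)) ≠ 0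
    rw [hx0, map_one]
    exact one_ne_zero
  · have h1 := algIndep_germV ψ hψ
      (z := fun N => Sum.elim (fun I : {I // I ∈ expo (Fin (n + 1)) d} => a I.1) (z N)) hz
    convert h1 using 1
    funext i
    rcases i with i | i
    · rfl
    · show ψ (germHom (fun N => x N (j i))) / ψ (germHom (fun N => x N l)) =
        ψ (germHom (fun N => z N i))
      rw [hx0, map_one, div_one]
      congr 2
      funext N
      exact (hx3 N i).symm

private theorem excV_aux2 {k L : Type*} [Field k] [CharZero k] [Field L] [CharZero L]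
    [Algebra k L] {Ω : Type*} [Field Ω] [IsAlgClosed Ω] [CharZero Ω]
    (ψ : UP L →+* Ω)
    {n m d b : ℕ} (hd : m + 2 + 2 * b ≤ d) {ι : Type*} {e : ι → ℕ}
    {f : ι → MvPolynomial (Fin (n + 1)) k} (hf : ∀ i, (f i).IsHomogeneous (e i))
    (hdim : ringKrullDim (MvPolynomial (Fin (n + 1)) k ⧸ Ideal.span (Set.range f)) ≤
      ((m + 3 : ℕ) : ℕ))
    {a : (Fin (n + 1) →₀ ℕ) → L} {l : Fin (n + 1)} {j : Fin (m + 1) → Fin (n + 1)}
    {z : ℕ → Fin (m + 1) → L} {x : ℕ → Fin (n + 1) → L}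
    (hz : ∀ H : MvPolynomial ({I // I ∈ expo (Fin (n + 1)) d} ⊕ Fin (m + 1)) k, H ≠ 0 →
      ∃ N₀, ∀ N ≥ N₀, MvPolynomial.aeval
        (Sum.elim (fun I : {I // I ∈ expo (Fin (n + 1)) d} => a I.1) (z N)) H ≠ 0)
    (hx1 : ∀ N, CertV (eV d e) (aV a f) b (x N)) (hx2 : ∀ N, x N l = 1)
    (hx3 : ∀ N i, z N i = x N (j i)) : False := by
  let _ : Algebra k Ω := (ψ.comp (constHom.comp (algebraMap k L))).toAlgebra
  exact excV_aux ψ (fun u => rfl) hd hf hdim hz hx1 hx2 hx3

/-- **Compactness.** -/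
theorem exists_excV {k K L : Type*} [Field k] [CharZero k] [Countable k] [Field K] [CharZero K]
    [Field L] [CharZero L] [Algebra k K] [Algebra K L] [Algebra k L] [IsScalarTower k K L]
    {n m d b : ℕ} (hd : m + 2 + 2 * b ≤ d) {ι : Type*} {e : ι → ℕ}
    {f : ι → MvPolynomial (Fin (n + 1)) k} (hf : ∀ i, (f i).IsHomogeneous (e i))
    (hdim : ringKrullDim (MvPolynomial (Fin (n + 1)) k ⧸ Ideal.span (Set.range f)) ≤
      ((m + 3 : ℕ) : ℕ))
    {a : (Fin (n + 1) →₀ ℕ) → K}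
    (ha : AlgebraicIndependent k (fun I : {I // I ∈ expo (Fin (n + 1)) d} => a I.1))
    (l : Fin (n + 1)) (j : Fin (m + 1) → Fin (n + 1)) :
    ∃ g : MvPolynomial (Fin (m + 1)) K, g ≠ 0 ∧ ∀ x : Fin (n + 1) → L,
      CertV (eV d e) (aV (fun I => algebraMap K L (a I)) f) b x → x l ≠ 0 →
        MvPolynomial.aeval (fun i => x (j i) / x l) g = 0 := by
  classical
  set S : Set (Fin (m + 1) → L) := {z | ∃ x : Fin (n + 1) → L,
    CertV (eV d e) (aV (fun I => algebraMap K L (a I)) f) b x ∧ x l = 1 ∧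
      ∀ i : Fin (m + 1), z i = x (j i)} with hS
  have key : ∃ g : MvPolynomial (Fin (m + 1)) K, g ≠ 0 ∧ ∀ z ∈ S, MvPolynomial.aeval z g = 0 := by
    by_contra hcon
    push Not at hcon
    obtain ⟨z, hzS, hz⟩ := exists_generic_seqV (L := L) ha (S := S) fun g hg => by
      obtain ⟨z, hz1, hz2⟩ := hcon g hg
      exact ⟨z, hz1, hz2⟩
    choose x hx1 hx2 hx3 using hzS
    have hcU : CharZero (UP L) := charZero_of_injective_ringHom (constHom (L := L)).injective
    have hcΩ : CharZero (AlgebraicClosure (UP L)) :=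
      charZero_of_injective_ringHom (algebraMap (UP L) (AlgebraicClosure (UP L))).injective
    exact excV_aux2 (a := fun I => algebraMap K L (a I)) (l := l) (j := j) (z := z) (x := x)
      (algebraMap (UP L) (AlgebraicClosure (UP L))) hd hf hdim hz hx1 hx2 hx3
  obtain ⟨g, hg0, hg⟩ := key
  refine ⟨g, hg0, fun x hx hx0 => ?_⟩
  exact hg _ ⟨fun k => (x l)⁻¹ * x k, (certV_smul (inv_ne_zero hx0)).2 hx, inv_mul_cancel₀ hx0,
    fun i => div_eq_inv_mul _ _⟩

end Pool.Agent.Lib.MP_44a246_ntU
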