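import Mathlib
import Pool.Agent.Lib.MP_44a246_ntU.U16
import Pool.Agent.Lib.MP_44a246_ntU.U17

/-!
The exceptional set.
-/

namespace Pool.Agent.Lib.MP_44a246_ntU

open Pool.Agent.Lib.MP_e52354_nt
open Pool.Agent.Lib.MP_44a246_nt
open Pool.Agent.Lib.MP_44a246_ntL
open Pool.Agent.Lib.MP_44a246_ntS
open Pool.Agent.Lib.MP_44a246_ntG
open MvPolynomial

universe v w

/-- **The exceptional set**, for the points over algebraic extensions: it is given by finitely many
forms and its (affine) dimension is at most `m + 1`, that is at most `r - 1` if `r = m + 2` is the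
dimension of the variety. -/
theorem exists_excFormsV {k : Type*} {K : Type v} [Field k] [CharZero k] [Countable k] [Field K]
    [CharZero K] [Algebra k K] {n m d b : ℕ} (hd : m + 2 + 2 * b ≤ d) {ι : Type*} {e : ι → ℕ}
    {f : ι → MvPolynomial (Fin (n + 1)) k} (hf : ∀ i, (f i).IsHomogeneous (e i))
    (hdim : ringKrullDim (MvPolynomial (Fin (n + 1)) k ⧸ Ideal.span (Set.range f)) ≤
      ((m + 3 : ℕ) : ℕ))
    {a : (Fin (n + 1) →₀ ℕ) → K}
    (ha : AlgebraicIndependent k (fun I : {I // I ∈ expo (Fin (n + 1)) d} => a I.1)) :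
    ∃ (s : ℕ) (G : Fin s → MvPolynomial (Fin (n + 1)) K), (∀ i, ∃ E, (G i).IsHomogeneous E) ∧
      ringKrullDim (MvPolynomial (Fin (n + 1)) K ⧸ Ideal.span (Set.range G)) ≤ ((m + 1 : ℕ) : ℕ) ∧
      ∀ (L : Type w) [Field L] [Algebra K L] [Algebra.IsAlgebraic K L] [Algebra k L]
        [IsScalarTower k K L] (x : Fin (n + 1) → L),
        CertV (eV d e) (aV (fun I => algebraMap K L (a I)) f) b x → ∀ i, aeval x (G i) = 0 := by
  -- `exists_excV` over `AlgebraicClosure K` for all `l` and `j`, `exists_homogV` (for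
  -- `L = AlgebraicClosure K` and for `L : Type v`: the same universe), `dim_excV`; the finite index
  -- type is `Fin (n + 1) × (Fin (m + 1) → Fin (n + 1))` (`Fintype.equivFin`). For an algebraic
  -- extension `L` use an embedding `L →ₐ[K] AlgebraicClosure K` (`IsAlgClosed.lift`) and
  -- `certV_map`, as in `exists_excForm` (file MP_44a246_ntS/SV2.lean).
  have hex : ∀ (l : Fin (n + 1)) (j : Fin (m + 1) → Fin (n + 1)),
      ∃ g : MvPolynomial (Fin (m + 1)) K, g ≠ 0 ∧ ∀ x : Fin (n + 1) → AlgebraicClosure K,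
        CertV (eV d e) (aV (fun I => algebraMap K (AlgebraicClosure K) (a I)) f) b x → x l ≠ 0 →
          MvPolynomial.aeval (fun i => x (j i) / x l) g = 0 :=
    fun l j => exists_excV hd hf hdim ha l j
  choose g hg0 hg using hex
  have hex2 : ∀ (l : Fin (n + 1)) (j : Fin (m + 1) → Fin (n + 1)),
      ∃ (E : ℕ) (G : MvPolynomial (Fin (n + 1)) K), G.IsHomogeneous E ∧
        ∀ {L : Type v} [Field L] [Algebra K L] (x : Fin (n + 1) → L),
          (x l = 0 → aeval x G = 0) ∧
            (x l ≠ 0 → aeval x G = x l ^ E * aeval (fun i => x (j i) / x l) (g l j)) :=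
    fun l j => exists_homogV (g l j) l j
  choose E G hGh hG using hex2
  let eq := Fintype.equivFin (Fin (n + 1) × (Fin (m + 1) → Fin (n + 1)))
  refine ⟨_, fun i => G (eq.symm i).1 (eq.symm i).2, fun i => ⟨_, hGh _ _⟩, ?_, ?_⟩
  · refine dim_excV hg0 (E := E) (G := G) (fun l j L _ _ x hx => (hG l j x).2 hx) ?_
    intro l j
    refine Ideal.subset_span ⟨eq (l, j), ?_⟩
    simp only [Equiv.symm_apply_apply]
  · intro L _ _ _ _ _ x hx i
    let φ : L →ₐ[K] AlgebraicClosure K := IsAlgClosed.lift
    have h1 := certV_map φ.toRingHom hx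
    have h2 : (fun i I => φ.toRingHom (aV (fun I => algebraMap K L (a I)) f i I)) =
        aV (fun I => algebraMap K (AlgebraicClosure K) (a I)) f := by
      funext o I
      cases o with
      | none => exact φ.commutes _
      | some i =>
        show φ (algebraMap k L ((f i).coeff I)) = algebraMap k (AlgebraicClosure K) ((f i).coeff I)
        rw [IsScalarTower.algebraMap_apply k K L, φ.commutes,
          ← IsScalarTower.algebraMap_apply k K (AlgebraicClosure K)]
    rw [h2] at h1
    have h3 : ∀ l j, aeval x (G l j) = 0 := by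
      intro l j
      have h4 : aeval (fun j => φ.toRingHom (x j)) (G l j) = φ (aeval x (G l j)) := by
        have h5 := congrArg (fun g => g (G l j)) (MvPolynomial.comp_aeval (R := K) (f := x) φ)
        exact h5.symm
      have h6 : aeval (fun j => φ.toRingHom (x j)) (G l j) = 0 := by
        by_cases hl : φ.toRingHom (x l) = 0
        · exact (hG l j (fun j => φ.toRingHom (x j))).1 hl
        · rw [(hG l j (fun j => φ.toRingHom (x j))).2 hl, hg l j _ h1 hl, mul_zero]
      rw [h4] at h6
      exact (map_eq_zero φ).1 h6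
    exact h3 _ _

end Pool.Agent.Lib.MP_44a246_ntU
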