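import Mathlib
import Pool.Agent.Lib.MP_44a246_ntZ.Z12
import Pool.Agent.Lib.MP_44a246_ntU.U12
import Pool.Agent.Lib.MP_44a246_ntU.U14
import Pool.Agent.Lib.MP_44a246_ntU.U20
import Pool.Agent.Lib.MP_44a246_ntU.U21
import Pool.Agent.Lib.MP_44a246_ntU.U22
import Pool.Agent.Lib.MP_44a246_ntU.U23
import Pool.Agent.Lib.MP_44a246_ntX.XR3

/-!
The height theorem over the base field, for hypersurface sections of arbitrary varieties.
-/

namespace Pool.Agent.Lib.MP_44a246_ntU

open Pool.Agent.Lib.MP_44a246_nt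
open Pool.Agent.Lib.MP_44a246_ntL
open Pool.Agent.Lib.MP_44a246_ntV
open Pool.Agent.Lib.MP_44a246_ntS
open Pool.Agent.Lib.MP_44a246_ntX
open Pool.Agent.Lib.MP_44a246_ntG
open Pool.Agent.Lib.MP_44a246_ntZ
open Pool.Agent.Lib.MP_e52354_nt
open WithZero Module

universe u v w

/-- **The height theorem over the base field**, for the points of the hypersurface section of a
variety of dimension at most `r` defined over a subfield `k` of finite transcendence degree. -/
theorem heightV_base {κ : Type u} {K : Type v} [Field κ] [IsAlgClosed κ] [CharZero κ] [Field K]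
    [CharZero K] [Algebra κ K] (hK : IsFF κ K) (htr : Cardinal.aleph0 ≤ Algebra.trdeg ℚ κ)
    {k : Type*} [Field k] [CharZero k] [Algebra k K]
    (hk : Algebra.trdeg ℚ k < Cardinal.aleph0) {n d T r q M : ℕ} (hT : 1 ≤ T)
    (hT2 : 2000 * T ^ 2 ≤ d) (hq : 2500 * (T * (q + 3)) ≤ d)
    (hN : 2 * r + 8500 * T ^ 2 + T * (r + 2 + q) ≤ T * d)
    {ι : Type*} [Finite ι] {e : ι → ℕ}
    (he : ∀ i, 2000 * ((q + 3) * (T * e i)) ≤ d ^ 2 ∨ e i ≤ M)
    {f : ι → MvPolynomial (Fin (n + 1)) k} (hf : ∀ i, (f i).IsHomogeneous (e i))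
    (hdim : ringKrullDim (MvPolynomial (Fin (n + 1)) k ⧸ Ideal.span (Set.range f)) ≤
      ((r + 1 : ℕ) : ℕ))
    {a : (Fin (n + 1) →₀ ℕ) → K}
    (ha : AlgebraicIndependent k (fun I : ↥(expo (Fin (n + 1)) d) => a I.1)) :
    ∃ C : ℕ, ∀ (L : Type w) [Field L] [Algebra K L] [FiniteDimensional K L] [Algebra κ L]
      [IsScalarTower κ K L] [Algebra k L] [IsScalarTower k K L] (x : Fin (n + 1) → L), x ≠ 0 →
      Fval d (fun I => algebraMap K L (a I)) x = 0 → (∀ i, MvPolynomial.aeval x (f i) = 0) →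
      q * height κ x ≤ ramDeg κ L K ∨
        (d : ℤ) ^ 2 * height κ x ≤ C * finrank K L + 18 * T * M * ramDeg κ L K ∨
        CertV (eV d e) (aV (fun I => algebraMap K L (a I)) f) (2 * T) x := by
  classical
  have := Fintype.ofFinite ι
  obtain ⟨X, rfl, hXk⟩ := exists_baseV hK htr hk ha
  -- the poles of the coefficients
  let θ : Type _ := (Σ i : ι, ↥(expo (Fin (n + 1)) (e i)))
  obtain ⟨A₂, hA₂, hA₂'⟩ := exists_polesA hK
    (fun t : θ => algebraMap k K ((f t.1).coeff t.2.1))
  have hAs : (Function.support fun v => X.A v + A₂ v).Finite := by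
    refine (X.hA.union hA₂).subset fun v hv => ?_
    by_contra hcon
    rw [Set.mem_union, not_or, Function.mem_support, Function.mem_support, not_not, not_not] at hcon
    apply hv
    show X.A v + A₂ v = 0
    rw [hcon.1, hcon.2, add_zero]
  set A : Place κ K → ℕ := fun v => X.A v + A₂ v with hA
  refine ⟨d ^ 2 * ((27 * d ^ 2 + 8 * T * M) * ((∑ᶠ v, X.B v) + ∑ᶠ v, A v)), ?_⟩
  intro L _ _ _ _ _ _ _ x hx hF hfx
  have hL : IsFF κ L := hK.of_finite
  have hchar : CharZero L := charZero_of_injective_algebraMap (algebraMap K L).injective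
  obtain ⟨Y, c, hc, hYa, hYx, hYδ, hYρ, hYD⟩ := exists_datG X hK hx
  obtain ⟨hA1, hA2⟩ := mason_sum_over hL hAs
  obtain ⟨hB1, hB2⟩ := mason_sum_over hL X.hB
  have hτ : (Function.support fun w : Place κ L => ramIdx K w.1 * A (below K w)).Finite := by
    refine hA1.subset fun w hw h0 => hw ?_
    exact Int.natCast_eq_zero.1 h0
  -- the form and the equations of the variety vanish
  have hYv : Y.v = 0 := by
    show Fval d Y.a Y.x = 0
    rw [hYa, hYx, Fval_smul, hF, mul_zero]
  have hfY : ∀ i, MvPolynomial.aeval Y.x (f i) = 0 := by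
    intro i
    have h1 := hfx i
    rw [aeval_eq_Fval (hf i)] at h1 ⊢
    rw [hYx, Fval_smul, h1, mul_zero]
  -- the rank of the rows
  have hr : finrank L Y.Ux ≤ r := by
    refine finrank_Ux_le Y (k := k) (fun I hI u => ?_) fun p j hj =>
      card_le_of_dim_norm hf hdim hfY Y.h0 hj
    rw [IsScalarTower.algebraMap_apply k K L, hYD, hXk I hI u, map_zero]
  have hd1 : 1 ≤ d := by
    have h1 : 1 ≤ T ^ 2 := Nat.one_le_pow _ _ hT
    omega
  have hmain := height_V3 hL hT hT2 hq hN Y hYv hr hτ (e := eV d e) (M := M)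
    (a := aV (fun I => algebraMap K L (X.a I)) f) (by
      rintro (_ | i)
      · left
        show 2000 * ((q + 3) * (T * d)) ≤ d ^ 2
        have h2 : 2000 * ((q + 3) * T) ≤ d := by
          rw [mul_comm (q + 3) T]
          omega
        calc 2000 * ((q + 3) * (T * d)) = (2000 * ((q + 3) * T)) * d := by ring
          _ ≤ d * d := Nat.mul_le_mul_right _ h2
          _ = d ^ 2 := (sq d).symm
      · exact he i) (by
      rintro (_ | i) I hI w
      · show w.1 (algebraMap K L (X.a I)) ≤ _
        refine coef_le A (fun v => (X.ha I hI v).trans (exp_le_exp.mpr ?_)) w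
        rw [hA]
        push_cast
        have : (0 : ℤ) ≤ A₂ v := Int.natCast_nonneg _
        linarith
      · show w.1 (algebraMap k L ((f i).coeff I)) ≤ _
        rw [IsScalarTower.algebraMap_apply k K L]
        refine coef_le A (fun v => ((hA₂' ⟨i, ⟨I, hI⟩⟩ v)).trans (exp_le_exp.mpr ?_)) w
        rw [hA]
        push_cast
        have : (0 : ℤ) ≤ X.A v := Int.natCast_nonneg _
        linarith) (by
      rintro (_ | i)
      · show Fval d (fun I => algebraMap K L (X.a I)) Y.x = 0
        rw [← hYa]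
        exact hYv
      · show Fval (e i) (fun I => algebraMap k L ((f i).coeff I)) Y.x = 0
        rw [← aeval_eq_Fval (hf i)]
        exact hfY i)
  have h1 : height κ Y.x = height κ x := by
    rw [hYx]
    exact hL.height_smul hc
  have h2 : Y.Δ = ((∑ᶠ v, X.B v : ℕ) : ℤ) * Module.finrank K L := by
    unfold DatG.Δ
    rw [hYδ, ← hB2]
  have h3 : Y.R = ramDeg κ L K := by
    unfold DatG.R
    rw [hYρ]
    exact (mason_sum_ram (K := K) hL).2
  rcases hmain with h | h | h
  · left
    rwa [h1, h3] at h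
  · right; left
    rw [h1, h2, h3, hA2] at h
    refine h.trans (le_of_eq ?_)
    push_cast
    ring
  · right; right
    rw [hYx] at h
    exact (certV_smul hc).1 h

end Pool.Agent.Lib.MP_44a246_ntU
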